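import Mathlib.Computability.TuringDegree
import Mathlib.Computability.PartrecCode
import Pool.Agent.MP_b427ce_lc.Basic

/-!
Definability of the c.e. degrees below the halting set: common definitions and the statements of
the blocks.  All oracles are total functions `ℕ → ℕ`.
-/

namespace Pool.Agent.MP_68d28f_lc.CE

open Pool.Agent.MP_b427ce_lc
open Nat.Partrec (Code)

/-- a total function used as the only oracle -/
def orc (g : ℕ → ℕ) : Set (ℕ →. ℕ) := {fun n => Part.some (g n)}

/-- `f` is computable from `g` -/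
def Red (f g : ℕ → ℕ) : Prop := ComputableIn (orc g) f

/-- the join of two functions -/
def jn (f g : ℕ → ℕ) : ℕ → ℕ := fun n => Nat.pair (f n) (g n)

/-- the characteristic function of a set -/
noncomputable def chi (A : Set ℕ) : ℕ → ℕ := A.indicator fun _ => 1

/-- the halting set -/
noncomputable def KK : ℕ → ℕ := chi {m | ((Denumerable.ofNat Code m).eval m).Dom}

/-- computably enumerable sets -/
def IsRE (A : Set ℕ) : Prop := ∃ c : Code, ∀ n, n ∈ A ↔ (c.eval n).Dom

/-- `f` has the degree of a computably enumerable set -/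
def CEdeg (f : ℕ → ℕ) : Prop := ∃ A, IsRE A ∧ Red f (chi A) ∧ Red (chi A) f

/-- one function computable from the halting set dominates all functions computable from `X` -/
def Dom2 (X : ℕ → ℕ) : Prop :=
  ∃ f, Red f KK ∧ ∀ h, Red h X → ∃ N, ∀ n, N ≤ n → h n ≤ f n

/-- the join of two strings, cut at the shorter length -/
def zip2 (a b : List ℕ) : List ℕ := List.zipWith Nat.pair a b

/-- the universal monotone functional: index `e`, finite oracle `σ`, input `x` -/
def ev (e : ℕ) (σ : List ℕ) (x : ℕ) : Option ℕ :=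
  ((List.range (σ.length + 1)).flatMap fun k => (List.range (k + 1)).flatMap fun m =>
    (Code.evaln k (Denumerable.ofNat Code e)
      (Nat.pair (Encodable.encode (σ.take m)) x)).toList).head?

/-- the longest string that the functional `e` computes from `σ` -/
def out (e : ℕ) (σ : List ℕ) : List ℕ :=
  (((List.range σ.length).map (ev e σ)).takeWhile Option.isSome).map fun o => o.getD 0

/-- the functional `e` computes `f` from `g` -/
def Cmp (e : ℕ) (g f : ℕ → ℕ) : Prop := ∀ x, ∃ n, ev e (pre g n) x = some (f x)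

/-- an enumeration of `A` without repetition and with infinitely many idle stages -/
structure Enum (A : Set ℕ) (en : ℕ → Option ℕ) : Prop where
  comp : Computable en
  mem : ∀ a, a ∈ A ↔ ∃ s, en s = some a
  inj : ∀ s t a, en s = some a → en t = some a → s = t
  gap : ∀ s, ∃ t, s ≤ t ∧ en t = none

/-- `Z` fails the join property -/
def NoJoin (Z : ℕ → ℕ) : Prop :=
  ∃ U, Red U Z ∧ ¬ Computable U ∧ ∀ V, Red V Z → Red Z (jn U V) → Red U V

/-- escaping domination: a construction computable in `Y` whose bound is large enough infinitely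
often -/
def LemA : Prop :=
  ∀ (S : Type) [Primcodable S] (Y : ℕ → ℕ), Red Y KK → ¬ Dom2 Y →
    ∀ (step : S → ℕ → S) (bs : S → ℕ) (s0 : S),
      ComputableIn (orc Y) (fun p : S × ℕ => step p.1 p.2) → ComputableIn (orc KK) bs →
      (∀ s b, bs s ≤ b → step s b = step s (bs s)) →
      ∃ (st : ℕ → S) (h : ℕ → ℕ), ComputableIn (orc Y) st ∧ st 0 = s0 ∧
        (∀ t, st (t + 1) = step (st t) (h t)) ∧ ∀ N, ∃ t, N ≤ t ∧ bs (st t) ≤ h t

/-- using domination: a construction computable in the halting set whose bound is eventually large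
enough for every search with oracle `X` that eventually always succeeds -/
def LemB : Prop :=
  ∀ (S : Type) [Primcodable S] (X : ℕ → ℕ), Dom2 X →
    ∀ (step : S → ℕ → S) (s0 : S), ComputableIn (orc KK) (fun p : S × ℕ => step p.1 p.2) →
      ∃ (st : ℕ → S) (b : ℕ → ℕ), ComputableIn (orc KK) st ∧ st 0 = s0 ∧
        (∀ i, st (i + 1) = step (st i) (b i)) ∧ (∀ N, ∃ i1, ∀ i, i1 ≤ i → N ≤ b i) ∧
        ∀ W : S → ℕ → Bool, ComputableIn (orc X) (fun p : S × ℕ => W p.1 p.2) →
          ∀ i0, (∀ i, i0 ≤ i → ∃ w, W (st i) w = true) →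
            ∃ i1, ∀ i, i1 ≤ i → ∃ w, w < b i ∧ W (st i) w = true

/-- unrefuted certificates give a computably enumerable degree -/
def LemC : Prop :=
  ∀ (S : Type) [Primcodable S] (X : ℕ → ℕ), Red X KK →
    ∀ (θ : ℕ → S) (val : S → ℕ) (R : ℕ → S → ℕ → Bool),
      ComputableIn (orc X) θ → Computable val →
      Computable (fun p : ℕ × S × ℕ => R p.1 p.2.1 p.2.2) →
      (∀ j t, R j (θ j) t = false) → (∀ j a, (∀ t, R j a t = false) → val a = X j) → CEdeg X

/-- minimal covers below a relatively c.e. degree escape every smaller degree -/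
def T1 : Prop :=
  ∀ (W : Set ℕ) (G B : ℕ → ℕ), IsRE W → Red G B → Red B (jn (chi W) G) → ¬ Red (chi W) B →
    ∃ M : ℕ → ℕ, Red M (jn (chi W) G) ∧ ¬ Red M B ∧
      ∀ C, Red C (jn M G) → Red C G ∨ Red M (jn C G)

/-- a c.e. set splits into two c.e. sets below degrees without the join property -/
def T2 : Prop :=
  ∀ W, IsRE W → ∃ W0 W1 : Set ℕ, IsRE W0 ∧ IsRE W1 ∧ Red (chi W0) (chi W) ∧
    Red (chi W1) (chi W) ∧ Red (chi W) (jn (chi W0) (chi W1)) ∧
    (∃ Z, Red Z KK ∧ Red (chi W0) Z ∧ NoJoin Z) ∧ ∃ Z, Red Z KK ∧ Red (chi W1) Z ∧ NoJoin Z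

/-- failure of the join property gives domination -/
def T3 : Prop := ∀ Z, Red Z KK → NoJoin Z → Dom2 Z

/-- a dominated degree that is not c.e. has a join whose minimal covers lie below a smaller
degree -/
def T4 : Prop :=
  ∀ X : ℕ → ℕ, (∀ n, X n ≤ 1) → Red X KK → Dom2 X → ¬ CEdeg X →
    ∃ G A : ℕ → ℕ, Red G KK ∧ Red A (jn X G) ∧ ¬ Red X (jn A G) ∧
      ∀ Z, Red Z (jn X G) → Red Z (jn A G) ∨
        ∃ C D, Red C (jn Z G) ∧ Red D (jn Z G) ∧ ¬ Red C (jn D G) ∧ ¬ Red D (jn C G)

end Pool.Agent.MP_68d28f_lc.CE
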