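import Mathlib.ModelTheory.Order
import Pool.Agent.MP_68d28f_lc.ce.Kit

/-!
The defining formula, and the reduction of the definability theorem to its four blocks.
-/

namespace Pool.Agent.MP_68d28f_lc.CE

open Encodable Nat.Partrec Pool.Agent.MP_b427ce_lc FirstOrder FirstOrder.Language

/-- Formulas of the language of orders. -/
abbrev Fm (n : ℕ) := Language.order.BoundedFormula (Fin 1) n

/-- `i ≤ j`. -/
def fle {n : ℕ} (i j : Fin n) : Fm n := Term.le (&i) (&j)

/-- `x` is below every upper bound of `a` and `b`. -/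
def fub {n : ℕ} (a b x : Fin n) : Fm n :=
  ∀' (fle a.castSucc (Fin.last n) ⟹ fle b.castSucc (Fin.last n) ⟹ fle x.castSucc (Fin.last n))

/-- `b` is a nonzero element below `z` without a joining partner. -/
def fnj {n : ℕ} (b z : Fin n) : Fm n :=
  fle b z ⊓ (∃' (∼ (fle b.castSucc (Fin.last n))) ⊓
    ∀' (fle (Fin.last n) z.castSucc ⟹ fub b.castSucc (Fin.last n) z.castSucc ⟹
      fle z.castSucc (Fin.last n)))

/-- `y` is below an element without the join property. -/
def flow {n : ℕ} (y : Fin n) : Fm n :=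
  ∃' (fle y.castSucc (Fin.last n) ⊓ ∃' (fnj (Fin.last (n + 1)) (Fin.last n).castSucc))

/-- Nothing lies strictly between `g` and `m`. -/
def fmc {n : ℕ} (g m : Fin n) : Fm n :=
  fle g m ⊓ ∀' (fle g.castSucc (Fin.last n) ⟹ fle (Fin.last n) m.castSucc ⟹
    (fle (Fin.last n) g.castSucc ⊔ fle m.castSucc (Fin.last n)))

/-- A minimal cover of `g` below the join of `y` and `g` escapes `b`. -/
def fes {n : ℕ} (y g b : Fin n) : Fm n :=
  fle g b ⟹ fub y g b ⟹ ∼ (fle y b) ⟹ ∃' (fub y.castSucc g.castSucc (Fin.last n) ⊓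
    (fmc g.castSucc (Fin.last n) ⊓ ∼ (fle (Fin.last n) b.castSucc)))

/-- The property of the two halves. -/
def fgd {n : ℕ} (y : Fin n) : Fm n :=
  flow y ⊓ ∀' ∀' (fes y.castSucc.castSucc (Fin.last n).castSucc (Fin.last (n + 1)))

/-- `x` is the join of two good elements. -/
def fce {n : ℕ} (x a b : Fin n) : Fm n := fle a x ⊓ (fle b x ⊓ (fub a b x ⊓ (fgd a ⊓ fgd b)))

/-- The defining formula. -/
def phi : Language.order.Formula (Fin 1) :=
  ∃' (((&0) =' Term.var (Sum.inl 0)) ⊓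
    ∃' ∃' (fce (Fin.last 0).castSucc.castSucc (Fin.last 1).castSucc (Fin.last 2)))

/-- Nothing lies strictly between `g` and `m`. -/
def MinCov (g m : ℕ → ℕ) : Prop := Red g m ∧ ∀ d, Red g d → Red d m → Red d g ∨ Red m d

/-- Relative to every `g` below the halting set, minimal covers escape every proper lower cone. -/
def Esc (y : ℕ → ℕ) : Prop :=
  ∀ g b, Red g KK → Red g b → Red b (jn y g) → ¬ Red y b →
    ∃ m, Red m (jn y g) ∧ MinCov g m ∧ ¬ Red m b

lemma jn_mono {a b c d : ℕ → ℕ} (h1 : Red a c) (h2 : Red b d) : Red (jn a b) (jn c d) :=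
  (h1.trans (red_jn_left _ _)).jn (h2.trans (red_jn_right _ _))

lemma MinCov.congr {g m g' m' : ℕ → ℕ} (h : MinCov g m) (h1 : Red g g') (h2 : Red g' g)
    (h3 : Red m m') (h4 : Red m' m) : MinCov g' m' :=
  ⟨(h2.trans h.1).trans h3, fun d d1 d2 =>
    (h.2 d (h1.trans d1) (d2.trans h4)).imp (fun e => e.trans h1) h4.trans⟩

lemma Esc.congr {y y' : ℕ → ℕ} (h : Esc y) (h1 : Red y y') (h2 : Red y' y) : Esc y' :=
  fun g b a1 a2 a3 a4 =>
    (h g b a1 a2 (a3.trans (jn_mono h2 (Red.refl _))) fun e => a4 (h2.trans e)).imp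
      fun _ hm => ⟨hm.1.trans (jn_mono h1 (Red.refl _)), hm.2⟩

lemma esc_of_re (h : T1) {W : Set ℕ} (hW : IsRE W) : Esc (chi W) := fun g b _ a2 a3 a4 => by
  obtain ⟨m, m1, m2, m3⟩ := h W g b hW a2 a3 a4
  exact ⟨jn m g, m1.jn (red_jn_right _ _), ⟨red_jn_right _ _, fun d d1 d2 =>
    (m3 d d2).imp id fun e => (e.trans ((Red.refl d).jn d1)).jn d1⟩,
    fun e => m2 ((red_jn_left _ _).trans e)⟩

lemma ce_of_esc (h : T4) {X : ℕ → ℕ} (h1 : ∀ n, X n ≤ 1) (h2 : Red X KK) (h3 : Dom2 X)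
    (h4 : Esc X) : CEdeg X := by
  by_contra hc
  obtain ⟨G, A, a1, a2, a3, a4⟩ := h X h1 h2 h3 hc
  obtain ⟨m, m1, ⟨m2, m3⟩, m4⟩ := h4 G (jn A G) a1 (red_jn_right _ _)
    (a2.jn (red_jn_right _ _)) a3
  obtain ⟨C, D, c1, d1, c2, d2⟩ := (a4 m m1).resolve_left m4
  have e := (Red.refl m).jn m2
  rcases m3 (jn C G) (red_jn_right _ _) ((c1.trans e).jn m2) with h | h
  · exact c2 (((red_jn_left _ _).trans h).trans (red_jn_right _ _))
  · exact d2 ((d1.trans e).trans h)

section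

variable {M : Type} [LE M] [Language.order.Structure M] [Language.order.OrderedStructure M]
  {n : ℕ} {v : Fin 1 → M} {xs : Fin n → M} {rep : M → ℕ → ℕ}

lemma re_le {i j : Fin n} : (fle i j).Realize v xs ↔ xs i ≤ xs j := by simp [fle]

/-- `rep` picks representatives. -/
structure Rep (rep : M → ℕ → ℕ) : Prop where
  le : ∀ x y, x ≤ y ↔ Red (rep x) (rep y)
  bd : ∀ x, Red (rep x) KK
  one : ∀ x n, rep x n ≤ 1
  sj : ∀ a, Red a KK → ∃ x, Red (rep x) a ∧ Red a (rep x)

variable (R : Rep rep)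
include R

lemma re_ub {a b x : Fin n} :
    (fub a b x).Realize v xs ↔ Red (rep (xs x)) (jn (rep (xs a)) (rep (xs b))) := by
  simp only [fub, BoundedFormula.realize_all, BoundedFormula.realize_imp, re_le,
    Fin.snoc_castSucc, Fin.snoc_last, R.le]
  refine ⟨fun h => ?_, fun h u h1 h2 => h.trans (h1.jn h2)⟩
  obtain ⟨u, u1, u2⟩ := R.sj _ ((R.bd (xs a)).jn (R.bd (xs b)))
  exact (h u ((red_jn_left _ _).trans u2) ((red_jn_right _ _).trans u2)).trans u1

lemma re_low {y : Fin n} :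
    (flow y).Realize v xs ↔ ∃ z, Red z KK ∧ Red (rep (xs y)) z ∧ NoJoin z := by
  simp only [flow, fnj, BoundedFormula.realize_all, BoundedFormula.realize_imp, re_le,
    BoundedFormula.realize_ex, BoundedFormula.realize_inf, BoundedFormula.realize_not, re_ub R,
    Fin.snoc_castSucc, Fin.snoc_last, R.le]
  constructor
  · rintro ⟨z, h1, b, h2, ⟨u, h3⟩, h4⟩
    refine ⟨_, R.bd z, h1, _, h2, fun h => h3 (red_of_computable h _), fun c c1 c2 => ?_⟩
    obtain ⟨c', d1, d2⟩ := R.sj c (c1.trans (R.bd z))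
    exact (h2.trans (h4 c' (d1.trans c1) (c2.trans (jn_mono (Red.refl _) d2)))).trans d1
  · rintro ⟨z, h2, h1, b, h3, h4, h5⟩
    obtain ⟨z', z1, z2⟩ := R.sj z h2
    obtain ⟨b', b1, b2⟩ := R.sj b (h3.trans h2)
    obtain ⟨u, u1, -⟩ := R.sj (fun _ => 0) (red_of_computable (Computable.const 0) _)
    refine ⟨z', h1.trans z2, b', (b1.trans h3).trans z2, ⟨u, fun h => h4
      (computable_of_red ((b2.trans h).trans u1) (Computable.const 0))⟩, fun c c1 c2 => ?_⟩
    have e := (z2.trans c2).trans (jn_mono b1 (Red.refl _))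
    exact (z1.trans e).trans ((h5 _ (c1.trans z1) e).jn (Red.refl _))

lemma re_mc {g m : Fin n} : (fmc g m).Realize v xs ↔ MinCov (rep (xs g)) (rep (xs m)) := by
  simp only [fmc, MinCov, BoundedFormula.realize_all, BoundedFormula.realize_imp, re_le,
    BoundedFormula.realize_inf, BoundedFormula.realize_sup,
    Fin.snoc_castSucc, Fin.snoc_last, R.le]
  refine and_congr_right fun _ => ⟨fun h d d1 d2 => ?_, fun h d => h _⟩
  obtain ⟨d', e1, e2⟩ := R.sj d (d2.trans (R.bd _))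
  exact (h d' (d1.trans e2) (e1.trans d2)).imp e2.trans fun h => h.trans e1

lemma re_gd {y : Fin n} : (fgd y).Realize v xs ↔
    (∃ z, Red z KK ∧ Red (rep (xs y)) z ∧ NoJoin z) ∧ Esc (rep (xs y)) := by
  simp only [fgd, fes, BoundedFormula.realize_all, BoundedFormula.realize_imp, re_le,
    BoundedFormula.realize_ex, BoundedFormula.realize_inf, BoundedFormula.realize_not, re_ub R,
    re_low R, re_mc R, Fin.snoc_castSucc, Fin.snoc_last, R.le]
  refine and_congr_right fun _ => ⟨fun h g b h1 h2 h3 h4 => ?_, fun h g b h2 h3 h4 => ?_⟩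
  · obtain ⟨g', g1, g2⟩ := R.sj g h1
    obtain ⟨b', b1, b2⟩ := R.sj b (h3.trans ((R.bd _).jn h1))
    obtain ⟨m, m1, m2, m3⟩ := h g' b' ((g1.trans h2).trans b2)
      ((b1.trans h3).trans (jn_mono (Red.refl _) g2)) fun e => h4 (e.trans b1)
    exact ⟨_, m1.trans (jn_mono (Red.refl _) g1), m2.congr g1 g2 (Red.refl _) (Red.refl _),
      fun e => m3 (e.trans b2)⟩
  · obtain ⟨m, m1, m2, m3⟩ := h _ _ (R.bd g) h2 h3 h4
    obtain ⟨m', e1, e2⟩ := R.sj m (m1.trans ((R.bd _).jn (R.bd _)))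
    exact ⟨m', e1.trans m1, m2.congr (Red.refl _) (Red.refl _) e2 e1, fun e => m3 (e2.trans e)⟩

theorem re_phi (h1 : T1) (h2 : T2) (h3 : T3) (h4 : T4) (x : M) :
    phi.Realize (fun _ => x) ↔ CEdeg (rep x) := by
  simp only [phi, fce, Formula.Realize, BoundedFormula.realize_ex, BoundedFormula.realize_inf,
    re_le, re_ub R, re_gd R, Fin.snoc_castSucc, Fin.snoc_last, R.le, BoundedFormula.realize_bdEqual,
    Term.realize_var, Sum.elim_inl, Function.comp_apply, Sum.elim_inr]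
  constructor
  · rintro ⟨x', e, a, b, a1, b1, j, ⟨⟨z, z2, z1, z3⟩, a2⟩, ⟨z', z2', z1', z3'⟩, b2⟩
    obtain rfl : x' = x := e
    obtain ⟨w, w1, w2, w3⟩ := (ce_of_esc h4 (R.one a) (R.bd a) ((h3 z z2 z3).mono z1) a2).jn
      (ce_of_esc h4 (R.one b) (R.bd b) ((h3 z' z2' z3').mono z1') b2)
    exact ⟨w, w1, j.trans w2, w3.trans (a1.jn b1)⟩
  · rintro ⟨w, w1, w2, w3⟩
    obtain ⟨y, y', c, c', d, d', j, ⟨z, z1, z2, z3⟩, z', z1', z2', z3'⟩ := h2 w w1
    obtain ⟨a, a1, a2⟩ := R.sj _ c.red_KK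
    obtain ⟨b, b1, b2⟩ := R.sj _ c'.red_KK
    exact ⟨x, rfl, a, b, (a1.trans d).trans w3, (b1.trans d').trans w3,
      (w2.trans j).trans (jn_mono a2 b2),
      ⟨⟨z, z1, a1.trans z2, z3⟩, (esc_of_re h1 c).congr a2 a1⟩,
      ⟨z', z1', b1.trans z2', z3'⟩, (esc_of_re h1 c').congr b2 b1⟩

end

/-- The degree of a set. -/
noncomputable def dg (A : Set ℕ) : TuringDegree :=
  toAntisymmetrization (TuringReducible : (ℕ →. ℕ) → (ℕ →. ℕ) → Prop)
    (fun n : ℕ => Part.some (A.indicator (fun _ => (1 : ℕ)) n))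

lemma dg_le {A B : Set ℕ} : dg A ≤ dg B ↔ Red (chi A) (chi B) := Iff.rfl

theorem glue (h1 : T1) (h2 : T2) (h3 : T3) (h4 : T4) :
    ∃ φ : Language.order.Formula (Fin 1),
      ∀ [_S : Language.order.Structure
          {d : TuringDegree // ∃ A : Set ℕ,
            d = toAntisymmetrization (TuringReducible : (ℕ →. ℕ) → (ℕ →. ℕ) → Prop)
                  (fun n : ℕ => Part.some (A.indicator (fun _ => (1 : ℕ)) n)) ∧
            d ≤ toAntisymmetrization (TuringReducible : (ℕ →. ℕ) → (ℕ →. ℕ) → Prop)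
                  (fun n : ℕ => Part.some
                    ({m : ℕ | ((Denumerable.ofNat Nat.Partrec.Code m).eval m).Dom}.indicator
                      (fun _ => (1 : ℕ)) n))}],
        (∀ x y : {d : TuringDegree // ∃ A : Set ℕ,
            d = toAntisymmetrization (TuringReducible : (ℕ →. ℕ) → (ℕ →. ℕ) → Prop)
                  (fun n : ℕ => Part.some (A.indicator (fun _ => (1 : ℕ)) n)) ∧
            d ≤ toAntisymmetrization (TuringReducible : (ℕ →. ℕ) → (ℕ →. ℕ) → Prop)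
                  (fun n : ℕ => Part.some
                    ({m : ℕ | ((Denumerable.ofNat Nat.Partrec.Code m).eval m).Dom}.indicator
                      (fun _ => (1 : ℕ)) n))},
            Structure.RelMap (L := Language.order) Language.leSymb ![x, y] ↔ x.1 ≤ y.1) →
        ∀ x : {d : TuringDegree // ∃ A : Set ℕ,
            d = toAntisymmetrization (TuringReducible : (ℕ →. ℕ) → (ℕ →. ℕ) → Prop)
                  (fun n : ℕ => Part.some (A.indicator (fun _ => (1 : ℕ)) n)) ∧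
            d ≤ toAntisymmetrization (TuringReducible : (ℕ →. ℕ) → (ℕ →. ℕ) → Prop)
                  (fun n : ℕ => Part.some
                    ({m : ℕ | ((Denumerable.ofNat Nat.Partrec.Code m).eval m).Dom}.indicator
                      (fun _ => (1 : ℕ)) n))},
          φ.Realize (fun _ => x) ↔
            ∃ A : Set ℕ,
              (∃ c : Nat.Partrec.Code, ∀ n : ℕ, n ∈ A ↔ (c.eval n).Dom) ∧
              x.1 = toAntisymmetrization (TuringReducible : (ℕ →. ℕ) → (ℕ →. ℕ) → Prop)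
                  (fun n : ℕ => Part.some (A.indicator (fun _ => (1 : ℕ)) n)) := by
  refine ⟨phi, fun {S} hS x => ?_⟩
  have hO := @Language.OrderedStructure.mk Language.order _ _ _ S fun v => by
    have := hS (v 0) (v 1)
    rwa [show ![v 0, v 1] = v from by
      funext i
      fin_cases i <;> rfl] at this
  have hr : ∀ y : {d : TuringDegree // ∃ A : Set ℕ, d = dg A ∧
      d ≤ dg {m : ℕ | ((Denumerable.ofNat Nat.Partrec.Code m).eval m).Dom}},
      ∃ A, y.1 = dg A ∧ Red (chi A) KK := fun y => by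
    obtain ⟨A, e1, e2⟩ := y.2
    exact ⟨A, e1, dg_le.1 (e1.ge.trans e2)⟩
  choose rep r1 r2 using hr
  have R : Rep fun y => chi (rep y) :=
    ⟨fun a b => by rw [← dg_le, ← r1, ← r1]; rfl, r2, fun y => chi_le_one _, fun a ha => by
      obtain ⟨A, a1, a2⟩ := exists_graph a
      exact ⟨⟨dg A, A, rfl, dg_le.2 (a2.trans ha)⟩, (dg_le.1 (r1 _).ge).trans a2,
        a1.trans (dg_le.1 (r1 _).le)⟩⟩
  refine (@re_phi _ _ S hO _ R h1 h2 h3 h4 x).trans ⟨?_, ?_⟩
  · rintro ⟨A, hA, w2, w3⟩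
    exact ⟨A, hA, (r1 x).trans (le_antisymm (dg_le.2 w2) (dg_le.2 w3))⟩
  · rintro ⟨A, hA, e⟩
    have e3 : dg (rep x) = dg A := (r1 x).symm.trans e
    exact ⟨A, hA, dg_le.1 e3.le, dg_le.1 e3.ge⟩

end Pool.Agent.MP_68d28f_lc.CE
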