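import Pool.Agent.MP_68d28f_lc.ce.Defs

/-! Kit, part A: more `fun_prop` closure lemmas and the basic properties of `Red`. -/

namespace Pool.Agent.MP_68d28f_lc.CE

open Pool.Agent.MP_b427ce_lc
open Nat.Partrec (Code)

section closure
variable {α β γ σ : Type} [Primcodable α] [Primcodable β] [Primcodable γ] [Primcodable σ]
  {O : Set (ℕ →. ℕ)}

lemma cin_trans {g h : ℕ → ℕ} {F : α → β} (hF : ComputableIn (orc g) F) (hg : Red g h) :
    ComputableIn (orc h) F :=
  RecursiveIn.subst hF fun g' hg' => by
    rw [Set.mem_singleton_iff.1 hg']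
    exact hg

lemma ofC {F : α → β} (hF : Computable F) : ComputableIn O F := hF.computableIn

@[fun_prop] lemma c_min {f g : α → ℕ} (hf : ComputableIn O f) (hg : ComputableIn O g) :
    ComputableIn O fun a => min (f a) (g a) := c_prim₂ Primrec.nat_min hf hg

@[fun_prop] lemma c_ofNat {δ : Type} [Denumerable δ] {f : α → ℕ} (hf : ComputableIn O f) :
    ComputableIn O fun a => Denumerable.ofNat δ (f a) := c_prim (Primrec.ofNat δ) hf

@[fun_prop] lemma c_toList {f : α → Option β} (hf : ComputableIn O f) :
    ComputableIn O fun a => (f a).toList := by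
  refine c_prim (f := Option.toList) ?_ hf
  refine (Primrec.option_casesOn Primrec.id (Primrec.const ([] : List β))
    (Primrec.list_cons.comp Primrec.snd (Primrec.const [])).to₂).of_eq fun o => ?_
  cases o <;> rfl

@[fun_prop] lemma c_optMap [Inhabited β] {f : α → Option β} {g : α → β → γ}
    (hf : ComputableIn O f) (hg : ComputableIn O fun p : α × β => g p.1 p.2) :
    ComputableIn O fun a => (f a).map (g a) :=
  cin_of_eq (c_head? (c_map (c_toList hf) hg)) fun a => by cases f a <;> rfl

@[fun_prop] lemma c_optBind [Inhabited β] {f : α → Option β} {g : α → β → Option γ}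
    (hf : ComputableIn O f) (hg : ComputableIn O fun p : α × β => g p.1 p.2) :
    ComputableIn O fun a => (f a).bind (g a) :=
  cin_of_eq (c_optGetD (c_optMap hf hg) (c_const none)) fun a => by cases f a <;> rfl

@[fun_prop] lemma c_optElim [Inhabited β] {f : α → Option β} {d : α → γ} {g : α → β → γ}
    (hf : ComputableIn O f) (hd : ComputableIn O d)
    (hg : ComputableIn O fun p : α × β => g p.1 p.2) :
    ComputableIn O fun a => (f a).elim (d a) (g a) :=
  cin_of_eq (c_optGetD (c_optMap hf hg) hd) fun a => by cases f a <;> rfl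

@[fun_prop] lemma c_isNone {f : α → Option β} (hf : ComputableIn O f) :
    ComputableIn O fun a => (f a).isNone :=
  cin_of_eq (c_not (c_isSome hf)) fun a => by cases f a <;> rfl

@[fun_prop] lemma c_filterMap [Inhabited β] {f : α → List β} {g : α → β → Option γ}
    (hf : ComputableIn O f) (hg : ComputableIn O fun p : α × β => g p.1 p.2) :
    ComputableIn O fun a => (f a).filterMap (g a) := by
  refine cin_of_eq (c_flatMap (g := fun a b => (g a b).toList) hf (c_toList hg)) fun a => ?_
  induction f a with
  | nil => rfl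
  | cons b l ih => cases h : g a b <;> simp [h, ih]

@[fun_prop] lemma c_reverse {f : α → List β} (hf : ComputableIn O f) :
    ComputableIn O fun a => (f a).reverse := c_prim Primrec.list_reverse hf

@[fun_prop] lemma c_foldr [Inhabited β] {f : α → List β} {g : α → σ} {h : α → β → σ → σ}
    (hf : ComputableIn O f) (hg : ComputableIn O g)
    (hh : ComputableIn O fun p : α × (β × σ) => h p.1 p.2.1 p.2.2) :
    ComputableIn O fun a => (f a).foldr (h a) (g a) := by
  refine cin_of_eq (c_foldl (h := fun a acc b => h a b acc) (c_reverse hf) hg ?_)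
    fun a => List.foldl_reverse
  exact c_comp hh (g := fun p : α × (σ × β) => (p.1, p.2.2, p.2.1)) (by fun_prop)

@[fun_prop] lemma c_takeWhile [Inhabited β] {f : α → List β} {g : α → β → Bool}
    (hf : ComputableIn O f) (hg : ComputableIn O fun p : α × β => g p.1 p.2) :
    ComputableIn O fun a => (f a).takeWhile (g a) := by
  refine cin_of_eq (c_foldr (h := fun a b acc => cond (g a b) (b :: acc) []) hf
    (c_const []) ?_) fun a => ?_
  · have := c_comp hg (g := fun p : α × (β × List β) => (p.1, p.2.1)) (by fun_prop)
    exact c_cond this (by fun_prop) (c_const _)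
  · induction f a with
    | nil => rfl
    | cons b l ih => cases h : g a b <;> simp [h, ih]

@[fun_prop] lemma c_zip2 {f g : α → List ℕ} (hf : ComputableIn O f) (hg : ComputableIn O g) :
    ComputableIn O fun a => zip2 (f a) (g a) := by
  refine cin_of_eq (f := fun a => (List.range (min (f a).length (g a).length)).map fun i =>
    Nat.pair ((f a).getD i 0) ((g a).getD i 0)) (by fun_prop) fun a => ?_
  apply List.ext_getElem (by simp [zip2])
  intro i h1 h2
  have h3 : i < (f a).length ∧ i < (g a).length := by simpa using h1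
  simp [zip2, List.getD_eq_getElem?_getD, h3.1, h3.2]

/-- boolean test for initial segments -/
def preB (a b : List ℕ) : Bool := eqB (b.take a.length) a

@[simp] lemma preB_iff {a b : List ℕ} : preB a b = true ↔ a <+: b := by
  rw [preB, eqB_iff, List.prefix_iff_eq_take, eq_comm]

@[fun_prop] lemma c_preB {f g : α → List ℕ} (hf : ComputableIn O f) (hg : ComputableIn O g) :
    ComputableIn O fun a => preB (f a) (g a) := by
  unfold preB; fun_prop

/-- boolean membership test -/
def memB {δ : Type} [DecidableEq δ] (x : δ) (l : List δ) : Bool := l.any fun y => eqB x y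

@[simp] lemma memB_iff {δ : Type} [DecidableEq δ] {x : δ} {l : List δ} :
    memB x l = true ↔ x ∈ l := by
  simp [memB]

@[fun_prop] lemma c_memB [DecidableEq β] [Inhabited β] {f : α → β} {g : α → List β}
    (hf : ComputableIn O f) (hg : ComputableIn O g) :
    ComputableIn O fun a => memB (f a) (g a) := by
  unfold memB; fun_prop

/-- boolean lexicographic order of lists, initial segments first -/
def ltB (a b : List ℕ) : Bool := decide (a < b)

@[simp] lemma ltB_iff {a b : List ℕ} : ltB a b = true ↔ a < b := by simp [ltB]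

lemma list_lt_iff (a b : List ℕ) : a < b ↔ ∃ i, i < b.length ∧ a.take i = b.take i ∧
    (a.length ≤ i ∨ a.getD i 0 + 1 ≤ b.getD i 0) := by
  induction a generalizing b with
  | nil =>
    cases b with
    | nil => simp
    | cons y b => exact ⟨fun _ => ⟨0, by simp⟩, fun _ => List.nil_lt_cons _ _⟩
  | cons x a ih =>
    cases b with
    | nil => simp
    | cons y b =>
      rw [List.cons_lt_cons_iff, ih]
      constructor
      · rintro (h | ⟨rfl, i, h1, h2, h3⟩)
        · exact ⟨0, by simp, by simp, Or.inr (by simpa using h)⟩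
        · exact ⟨i + 1, by simpa using h1, by simpa using h2, by simpa using h3⟩
      · rintro ⟨i, h1, h2, h3⟩
        cases i with
        | zero => exact Or.inl (by simpa using h3)
        | succ i =>
          have h4 : x = y ∧ a.take i = b.take i := by simpa using h2
          exact Or.inr ⟨h4.1, i, by simpa using h1, h4.2, by simpa using h3⟩

@[fun_prop] lemma c_ltB {f g : α → List ℕ} (hf : ComputableIn O f) (hg : ComputableIn O g) :
    ComputableIn O fun a => ltB (f a) (g a) := by
  refine cin_of_eq (f := fun a => (List.range (g a).length).any fun i =>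
    eqB ((f a).take i) ((g a).take i) &&
      (leB (f a).length i || leB ((f a).getD i 0 + 1) ((g a).getD i 0))) (by fun_prop) fun a => ?_
  rw [Bool.eq_iff_iff, ltB_iff, list_lt_iff]
  simp only [List.any_eq_true, List.mem_range, Bool.and_eq_true, Bool.or_eq_true, eqB_iff, leB_iff]

/-- the largest entry of a list -/
def lmax (l : List ℕ) : ℕ := l.foldr max 0

lemma le_lmax {l : List ℕ} {x : ℕ} (h : x ∈ l) : x ≤ lmax l := by
  induction l with
  | nil => simp at h
  | cons y l ih =>
    have e : lmax (y :: l) = max y (lmax l) := rfl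
    rw [e]
    rcases List.mem_cons.1 h with rfl | h
    · exact le_max_left _ _
    · exact le_trans (ih h) (le_max_right _ _)

lemma lmax_le {l : List ℕ} {n : ℕ} (h : ∀ x ∈ l, x ≤ n) : lmax l ≤ n := by
  induction l with
  | nil => exact Nat.zero_le _
  | cons y l ih =>
    have e : lmax (y :: l) = max y (lmax l) := rfl
    rw [e]
    exact max_le (h y List.mem_cons_self) (ih fun x hx => h x (List.mem_cons_of_mem _ hx))

@[fun_prop] lemma c_lmax {f : α → List ℕ} (hf : ComputableIn O f) :
    ComputableIn O fun a => lmax (f a) :=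
  c_foldr (h := fun _ x y => max x y) hf (c_const 0) (by fun_prop)

/-- a sequence defined by recursion is computable -/
lemma c_seq {st : ℕ → σ} {F : ℕ → σ → σ} (hF : ComputableIn O fun p : ℕ × σ => F p.1 p.2)
    (h : ∀ n, st (n + 1) = F n (st n)) : ComputableIn O st := by
  refine cin_of_eq (c_natIter (f := fun n : ℕ => n) (g := fun _ => st 0) (h := fun _ => F)
    c_id (c_const _) ?_) fun n => ?_
  · exact c_comp hF (g := fun p : ℕ × (ℕ × σ) => p.2) (by fun_prop)
  · induction n with
    | zero => rfl
    | succ n ih => rw [h n, ← ih]; rfl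

/-- a function is computable if its values can be found by a search -/
lemma c_search {f : α → β} {P : α → ℕ → Bool} {v : α → ℕ → β}
    (hP : ComputableIn O fun p : α × ℕ => P p.1 p.2)
    (hv : ComputableIn O fun p : α × ℕ => v p.1 p.2)
    (hex : ∀ a, ∃ w, P a w = true) (hok : ∀ a w, P a w = true → v a w = f a) :
    ComputableIn O f := by
  classical
  exact cin_of_eq (c_comp hv (c_pair c_id (c_find hP hex))) fun a =>
    hok a _ (Nat.find_spec (hex a))

end closure

lemma Red.refl (f : ℕ → ℕ) : Red f f := RecursiveIn.oracle _ rfl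

lemma Red.trans {f g h : ℕ → ℕ} (h1 : Red f g) (h2 : Red g h) : Red f h := cin_trans h1 h2

lemma red_jn_left (f g : ℕ → ℕ) : Red f (jn f g) :=
  cin_of_eq (c_fst (c_unpair (Red.refl (jn f g)))) fun n => by simp [jn]

lemma red_jn_right (f g : ℕ → ℕ) : Red g (jn f g) :=
  cin_of_eq (c_snd (c_unpair (Red.refl (jn f g)))) fun n => by simp [jn]

lemma Red.jn {f g h : ℕ → ℕ} (h1 : Red f h) (h2 : Red g h) : Red (jn f g) h := c_natPair h1 h2

lemma red_of_computable {f : ℕ → ℕ} (hf : Computable f) (g : ℕ → ℕ) : Red f g := ofC hf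

lemma computable_of_red {f g : ℕ → ℕ} (h : Red f g) (hg : Computable g) : Computable f :=
  RecursiveIn.partrec_of_oracle (fun g' hg' => by
    rw [Set.mem_singleton_iff.1 hg']
    exact hg) h

lemma Dom2.mono {X Y : ℕ → ℕ} (h : Dom2 Y) (hX : Red X Y) : Dom2 X := by
  obtain ⟨f, hf, hd⟩ := h
  exact ⟨f, hf, fun k hk => hd k (hk.trans hX)⟩

lemma chi_mem {A : Set ℕ} {n : ℕ} (h : n ∈ A) : chi A n = 1 := Set.indicator_of_mem h _

lemma chi_notMem {A : Set ℕ} {n : ℕ} (h : n ∉ A) : chi A n = 0 := Set.indicator_of_notMem h _

lemma chi_le_one (A : Set ℕ) (n : ℕ) : chi A n ≤ 1 := by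
  by_cases h : n ∈ A
  · exact (chi_mem h).le
  · rw [chi_notMem h]; exact Nat.zero_le _

end Pool.Agent.MP_68d28f_lc.CE
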