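import Pool.Agent.MP_68d28f_lc.ce.KitA

/-! Kit, second part: the API of `zip2`, `ev`, `out` and `Cmp`. -/

namespace Pool.Agent.MP_68d28f_lc.CE

open Pool.Agent.MP_b427ce_lc
open Nat.Partrec (Code)

section closure
variable {α : Type} [Primcodable α] {O : Set (ℕ →. ℕ)}

@[fun_prop] lemma c_ev {e : α → ℕ} {s : α → List ℕ} {x : α → ℕ} (he : ComputableIn O e)
    (hs : ComputableIn O s) (hx : ComputableIn O x) :
    ComputableIn O fun a => ev (e a) (s a) (x a) := by
  unfold ev
  fun_prop

@[fun_prop] lemma c_out {e : α → ℕ} {s : α → List ℕ} (he : ComputableIn O e)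
    (hs : ComputableIn O s) : ComputableIn O fun a => out (e a) (s a) := by
  unfold out
  have h1 : ComputableIn O fun a => (List.range (s a).length).map (ev (e a) (s a)) :=
    c_map (g := fun a x => ev (e a) (s a) x) (by fun_prop) (by fun_prop)
  have h2 : ComputableIn O fun a =>
      ((List.range (s a).length).map (ev (e a) (s a))).takeWhile Option.isSome :=
    c_takeWhile (g := fun _ o => Option.isSome o) h1 (by fun_prop)
  exact c_map (g := fun _ o => Option.getD o 0) h2 (by fun_prop)

end closure

lemma length_zip2 (a b : List ℕ) : (zip2 a b).length = min a.length b.length := by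
  simp [zip2]

lemma zip2_mono {a a' b b' : List ℕ} (h : a <+: a') (h' : b <+: b') :
    zip2 a b <+: zip2 a' b' := by
  obtain ⟨u, rfl⟩ := h
  obtain ⟨v, rfl⟩ := h'
  unfold zip2
  induction a generalizing b with
  | nil => simp
  | cons x a ih =>
    cases b with
    | nil => simp
    | cons y b => simpa [List.cons_prefix_cons] using ih

lemma zip2_pre (f g : ℕ → ℕ) (m n : ℕ) :
    zip2 (pre f m) (pre g n) = pre (jn f g) (min m n) := by
  apply List.ext_getElem (by simp [length_zip2])
  intro i h1 h2
  simp [zip2, pre, jn]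

lemma pre_jn (f g : ℕ → ℕ) (n : ℕ) : pre (jn f g) n = zip2 (pre f n) (pre g n) := by
  rw [zip2_pre, min_self]

/-- the list of all values found within the search bound -/
def evL (e : ℕ) (σ : List ℕ) (x n : ℕ) : List ℕ :=
  (List.range n).flatMap fun k => (List.range (k + 1)).flatMap fun m =>
    (Code.evaln k (Denumerable.ofNat Code e)
      (Nat.pair (Encodable.encode (σ.take m)) x)).toList

lemma ev_eq (e : ℕ) (σ : List ℕ) (x : ℕ) : ev e σ x = (evL e σ x (σ.length + 1)).head? := rfl

lemma mem_evL {e x n v : ℕ} {σ : List ℕ} : v ∈ evL e σ x n ↔ ∃ k, k < n ∧ ∃ m, m ≤ k ∧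
    Code.evaln k (Denumerable.ofNat Code e) (Nat.pair (Encodable.encode (σ.take m)) x)
      = some v := by
  simp [evL]

lemma evL_congr {e x n : ℕ} {s t : List ℕ} (h : s <+: t) (hn : n ≤ s.length + 1) :
    evL e t x n = evL e s x n := by
  obtain ⟨u, rfl⟩ := h
  unfold evL
  refine List.flatMap_congr fun k hk => List.flatMap_congr fun m hm => ?_
  have hk' := List.mem_range.1 hk
  have hm' := List.mem_range.1 hm
  rw [List.take_append_of_le_length (by omega)]

lemma evL_prefix (e x : ℕ) (s : List ℕ) {n n' : ℕ} (h : n ≤ n') :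
    evL e s x n <+: evL e s x n' := by
  induction n', h using Nat.le_induction with
  | base => exact List.prefix_refl _
  | succ k _ ih =>
    refine ih.trans ?_
    unfold evL
    rw [List.range_succ (n := k), List.flatMap_append]
    exact List.prefix_append _ _

lemma ev_mono {e x v : ℕ} {s t : List ℕ} (h : s <+: t) (hv : ev e s x = some v) :
    ev e t x = some v := by
  rw [ev_eq] at hv ⊢
  have hl := h.length_le
  obtain ⟨u, hu⟩ := evL_prefix e x t (show s.length + 1 ≤ t.length + 1 by omega)
  rw [← hu, evL_congr h le_rfl, List.head?_append, hv]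
  rfl

lemma ev_spec {e x v : ℕ} {s : List ℕ} (hv : ev e s x = some v) : ∃ k, k ≤ s.length ∧ ∃ m,
    m ≤ k ∧ Code.evaln k (Denumerable.ofNat Code e) (Nat.pair (Encodable.encode (s.take m)) x)
      = some v := by
  rw [ev_eq] at hv
  obtain ⟨k, hk, m, hm, h⟩ := mem_evL.1 (List.mem_of_mem_head? hv)
  exact ⟨k, by omega, m, hm, h⟩

lemma ev_isSome {e x v k m : ℕ} {s : List ℕ} (hk : k ≤ s.length) (hm : m ≤ k)
    (h : Code.evaln k (Denumerable.ofNat Code e) (Nat.pair (Encodable.encode (s.take m)) x)
      = some v) : ∃ w, ev e s x = some w := by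
  have hmem : v ∈ evL e s x (s.length + 1) := mem_evL.2 ⟨k, by omega, m, hm, h⟩
  rw [ev_eq]
  cases hl : evL e s x (s.length + 1) with
  | nil => rw [hl] at hmem; simp at hmem
  | cons w l => exact ⟨w, rfl⟩

lemma ev_lt {e x v : ℕ} {s : List ℕ} (hv : ev e s x = some v) : x < s.length := by
  obtain ⟨k, hk, m, -, h⟩ := ev_spec hv
  have h1 := Code.evaln_bound h
  have h2 := Nat.right_le_pair (Encodable.encode (s.take m)) x
  omega

lemma ev_cons {e x a b : ℕ} {s s' t : List ℕ} (h : s <+: t) (h' : s' <+: t)
    (ha : ev e s x = some a) (hb : ev e s' x = some b) : a = b := by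
  have h1 := ev_mono h ha
  rw [ev_mono h' hb] at h1
  exact (Option.some.inj h1).symm

lemma Cmp.eq {e x v n : ℕ} {g f : ℕ → ℕ} (h : Cmp e g f) (hv : ev e (pre g n) x = some v) :
    v = f x := by
  obtain ⟨m, hm⟩ := h x
  exact ev_cons (pre_isPrefix g (le_max_left n m)) (pre_isPrefix g (le_max_right n m)) hv hm

lemma Cmp.ev_ge {e : ℕ} {g f : ℕ → ℕ} (h : Cmp e g f) (x : ℕ) :
    ∃ n, ∀ m, n ≤ m → ev e (pre g m) x = some (f x) := by
  obtain ⟨n, hn⟩ := h x
  exact ⟨n, fun m hm => ev_mono (pre_isPrefix g hm) hn⟩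

lemma functional_orc (g : ℕ → ℕ) : Functional g fun n => Part.some (g n) := by
  refine ⟨fun l x => (l[x]? : Option ℕ), ?_, ?_, ?_⟩
  · exact Computable.ofOption (toC (f := fun p : List ℕ × ℕ => p.1[p.2]?) (by fun_prop))
  · rintro l _ x v ⟨u, rfl⟩ hv
    simp only [Part.mem_coe, Option.mem_def] at hv ⊢
    rw [List.getElem?_append_left (List.getElem?_eq_some_iff.1 hv).1]
    exact hv
  · intro x v hv
    refine ⟨x + 1, ?_⟩
    simp only [Part.mem_some_iff] at hv
    simp [pre, hv]

lemma red_iff {f g : ℕ → ℕ} : Red f g ↔ ∃ e, Cmp e g f := by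
  constructor
  · intro h
    have h1 : Nat.RecursiveIn {fun n => Part.some (g n)} fun n => Part.some (f n) :=
      Nat.RecursiveIn.of_eq h fun n => by simp
    obtain ⟨G, hG, hmono, hfun⟩ := functional_of_recursiveIn g (functional_orc g) h1
    have hG' : Nat.Partrec fun n => Part.bind (Encodable.decode (α := List ℕ × ℕ) n : Option _)
        fun p : List ℕ × ℕ => (G p.1 p.2).map Encodable.encode := hG
    obtain ⟨c, hc⟩ := Code.exists_code.1 hG'
    have hcv : ∀ (l : List ℕ) (x : ℕ), c.eval (Nat.pair (Encodable.encode l) x) = G l x := by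
      intro l x
      rw [hc]
      ext v
      simp
    refine ⟨Encodable.encode c, fun x => ?_⟩
    obtain ⟨n, hn⟩ := hfun x (f x) (by simp)
    rw [← hcv] at hn
    obtain ⟨k, hk⟩ := Code.evaln_complete.1 hn
    have hk' : Code.evaln (max k n) c (Nat.pair (Encodable.encode (pre g n)) x) = some (f x) :=
      Code.evaln_mono (le_max_left k n) hk
    obtain ⟨w, hw⟩ := ev_isSome (e := Encodable.encode c) (x := x) (v := f x) (k := max k n)
      (m := n) (s := pre g (max k n)) (by simp) (le_max_right _ _)
      (by rw [Denumerable.ofNat_encode, take_pre g (le_max_right k n)]; exact hk')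
    refine ⟨max k n, ?_⟩
    rw [hw]
    obtain ⟨k', hk1, m, hm, hv⟩ := ev_spec hw
    rw [length_pre] at hk1
    rw [Denumerable.ofNat_encode, take_pre g (show m ≤ max k n by omega)] at hv
    have hv' : w ∈ G (pre g m) x := by
      rw [← hcv]; exact Code.evaln_sound hv
    rw [hcv] at hn
    have e1 := hmono _ _ _ _ (pre_isPrefix g (le_max_left m n)) hv'
    have e2 := hmono _ _ _ _ (pre_isPrefix g (le_max_right m n)) hn
    rw [Part.mem_unique e1 e2]
  · rintro ⟨e, he⟩
    have hg : ComputableIn (orc g) g := Red.refl g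
    refine c_search (P := fun a w => (ev e (pre g w) a).isSome)
      (v := fun a w => (ev e (pre g w) a).getD 0) (by fun_prop) (by fun_prop) ?_ ?_
    · intro a
      obtain ⟨n, hn⟩ := he a
      exact ⟨n, by simp [hn]⟩
    · intro a w hw
      obtain ⟨v, hv⟩ := Option.isSome_iff_exists.1 hw
      simp [hv, he.eq hv]

lemma length_takeWhile_spec {β : Type} (p : β → Bool) (l : List β) (i : ℕ)
    (h : i < (l.takeWhile p).length) :
    ∃ hi : i < l.length, (l.takeWhile p)[i] = l[i] ∧ p l[i] = true := by
  have hp := List.takeWhile_prefix (l := l) p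
  have hi : i < l.length := lt_of_lt_of_le h hp.length_le
  have e : (l.takeWhile p)[i] = l[i] := hp.getElem h
  exact ⟨hi, e, by rw [← e]; exact List.all_eq_true.1 List.all_takeWhile _ (List.getElem_mem h)⟩

lemma le_length_takeWhile {β : Type} (p : β → Bool) (l : List β) (n : ℕ) (hn : n ≤ l.length)
    (h : ∀ i (hi : i < l.length), i < n → p l[i] = true) : n ≤ (l.takeWhile p).length := by
  induction l generalizing n with
  | nil => simpa using hn
  | cons a l ih =>
    cases n with
    | zero => exact Nat.zero_le _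
    | succ n =>
      have ha : p a = true := h 0 (by simp) (by omega)
      rw [List.takeWhile_cons_of_pos ha, List.length_cons]
      refine Nat.succ_le_succ (ih n (by simpa using hn) fun i hi hin => ?_)
      exact h (i + 1) (by simpa using hi) (by omega)

lemma length_out_le (e : ℕ) (s : List ℕ) : (out e s).length ≤ s.length := by
  unfold out
  rw [List.length_map]
  refine (List.takeWhile_prefix _).length_le.trans ?_
  simp

lemma ev_out {e x : ℕ} {s : List ℕ} (h : x < (out e s).length) :
    ev e s x = some ((out e s).getD x 0) := by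
  rw [List.getD_eq_getElem _ _ h]
  unfold out at h ⊢
  have h' := h
  rw [List.length_map] at h'
  obtain ⟨hi, e1, e2⟩ := length_takeWhile_spec _ _ x h'
  rw [List.getElem_map, e1]
  simp only [List.getElem_map, List.getElem_range] at e2 ⊢
  obtain ⟨v, hv⟩ := Option.isSome_iff_exists.1 e2
  simp [hv]

lemma le_length_out {e n : ℕ} {s : List ℕ} (h : ∀ x, x < n → (ev e s x).isSome = true) :
    n ≤ (out e s).length := by
  have hn : n ≤ s.length := by
    cases n with
    | zero => exact Nat.zero_le _
    | succ n =>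
      obtain ⟨v, hv⟩ := Option.isSome_iff_exists.1 (h n (by omega))
      exact ev_lt hv
  unfold out
  rw [List.length_map]
  refine le_length_takeWhile _ _ n (by simpa using hn) fun i hi hin => ?_
  simpa using h i hin

lemma out_mono (e : ℕ) {s t : List ℕ} (h : s <+: t) : out e s <+: out e t := by
  have hl : (out e s).length ≤ (out e t).length :=
    le_length_out fun x hx => by rw [ev_mono h (ev_out hx)]; rfl
  rw [List.prefix_iff_eq_take]
  apply List.ext_getElem (by simp [hl])
  intro i h1 h2
  have e1 := ev_mono h (ev_out h1)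
  have h3 : i < (out e t).length := lt_of_lt_of_le h1 hl
  rw [ev_out h3, List.getD_eq_getElem _ _ h3, List.getD_eq_getElem _ _ h1] at e1
  rw [List.getElem_take]
  exact (Option.some.inj e1).symm

lemma Cmp.out_eq {e : ℕ} {g f : ℕ → ℕ} (h : Cmp e g f) (n : ℕ) :
    out e (pre g n) = pre f (out e (pre g n)).length :=
  eq_pre_of (d := 0) rfl fun _ hj => h.eq (ev_out hj)

lemma Cmp.out_long {e : ℕ} {g f : ℕ → ℕ} (h : Cmp e g f) (m : ℕ) :
    ∃ n, ∀ k, n ≤ k → m ≤ (out e (pre g k)).length := by
  choose N hN using h.ev_ge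
  refine ⟨(Finset.range m).sup N, fun k hk => le_length_out fun x hx => ?_⟩
  rw [hN x k (le_trans (Finset.le_sup (f := N) (Finset.mem_range.2 hx)) hk)]
  rfl

end Pool.Agent.MP_68d28f_lc.CE
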