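import Pool.Agent.MP_68d28f_lc.ce.KitB

/-! Kit, part C: the halting oracle, the limit lemma, c.e. sets and c.e. degrees. -/

namespace Pool.Agent.MP_68d28f_lc.CE

open Pool.Agent.MP_b427ce_lc
open Nat.Partrec (Code)

lemma KC.ofC2 {α β γ δ : Type} [Primcodable α] [Primcodable β] [Primcodable γ] [Primcodable δ]
    {O : Set (ℕ →. ℕ)} {R : α → β → γ} (hR : Computable fun p : α × β => R p.1 p.2)
    {f : δ → α} {g : δ → β} (hf : ComputableIn O f) (hg : ComputableIn O g) :
    ComputableIn O fun a => R (f a) (g a) :=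
  c_comp (f := fun p : α × β => R p.1 p.2) (ofC hR) (c_pair hf hg)

lemma KC.exists_code {α : Type} [Primcodable α] {R : α → ℕ → Bool}
    (hR : Computable fun p : α × ℕ => R p.1 p.2) :
    ∃ c : Code, ∀ a, (c.eval (Encodable.encode a)).Dom ↔ ∃ w, R a w = true := by
  have h : Partrec fun a => Nat.rfind fun n => (Part.some (R a n) : Part Bool) :=
    Partrec.rfind (p := fun a n => Part.some (R a n)) hR.partrec
  obtain ⟨c, hc⟩ := Code.exists_code.1 h
  refine ⟨c, fun a => ?_⟩
  rw [hc]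
  simp only [Encodable.encodek, Part.coe_some, Part.bind_some]
  change (Nat.rfind fun n => (Part.some (R a n) : Part Bool)).Dom ↔ _
  rw [Nat.rfind_dom]
  simp

lemma KC.dom_iff (c : Code) (n : ℕ) :
    (c.eval n).Dom ↔ ∃ k, (Code.evaln k c n).isSome = true := by
  rw [Part.dom_iff_mem]
  constructor
  · rintro ⟨x, hx⟩
    obtain ⟨k, hk⟩ := Code.evaln_complete.1 hx
    exact ⟨k, Option.isSome_iff_exists.2 ⟨x, hk⟩⟩
  · rintro ⟨k, hk⟩
    obtain ⟨x, hx⟩ := Option.isSome_iff_exists.1 hk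
    exact ⟨x, Code.evaln_sound hx⟩

lemma KC.isSome_mono {c : Code} {n k l : ℕ} (h : k ≤ l)
    (hk : (Code.evaln k c n).isSome = true) : (Code.evaln l c n).isSome = true := by
  obtain ⟨x, hx⟩ := Option.isSome_iff_exists.1 hk
  exact Option.isSome_iff_exists.2 ⟨x, Code.evaln_mono h hx⟩

lemma KC.chi_eq_one {A : Set ℕ} {n : ℕ} : chi A n = 1 ↔ n ∈ A := by
  by_cases h : n ∈ A
  · simp [chi_mem h, h]
  · simp [chi_notMem h, h]

/-- the stage approximation of the halting set -/
def KC.stage (s m : ℕ) : ℕ := (Code.evaln s (Denumerable.ofNat Code m) m).isSome.toNat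

lemma KC.stage_lim (m : ℕ) : ∃ s0, ∀ s, s0 ≤ s → KC.stage s m = KK m := by
  by_cases h : ((Denumerable.ofNat Code m).eval m).Dom
  · obtain ⟨k, hk⟩ := (KC.dom_iff _ _).1 h
    refine ⟨k, fun s hs => ?_⟩
    rw [KK, chi_mem (A := {m | ((Denumerable.ofNat Code m).eval m).Dom}) h, KC.stage,
      KC.isSome_mono hs hk]
    rfl
  · refine ⟨0, fun s _ => ?_⟩
    rw [KK, chi_notMem (A := {m | ((Denumerable.ofNat Code m).eval m).Dom}) h, KC.stage]
    cases e : (Code.evaln s (Denumerable.ofNat Code m) m).isSome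
    · rfl
    · exact absurd ((KC.dom_iff _ _).2 ⟨s, e⟩) h

lemma KC.stage_pre (n : ℕ) : ∃ s0, ∀ s, s0 ≤ s → pre (KC.stage s) n = pre KK n := by
  choose t ht using KC.stage_lim
  refine ⟨(Finset.range n).sup t, fun s hs => pre_congr fun j hj => ht j s ?_⟩
  exact le_trans (Finset.le_sup (f := t) (Finset.mem_range.2 hj)) hs

section closure
variable {α β : Type} [Primcodable α] [Primcodable β]

open Classical in
/-- the halting set decides existential questions -/
lemma sigma1_KK {R : α → ℕ → Bool} (hR : Computable fun p : α × ℕ => R p.1 p.2) :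
    ComputableIn (orc KK) fun a => decide (∃ w, R a w = true) := by
  obtain ⟨c, hc⟩ := KC.exists_code hR
  have hK : ComputableIn (orc KK) KK := Red.refl KK
  refine cin_of_eq (f := fun a => eqB (KK (Encodable.encode
    (Code.curry (Code.comp c Code.left) (Encodable.encode a)))) 1) (by fun_prop) fun a => ?_
  rw [eqB, decide_eq_decide, KK, KC.chi_eq_one, ← hc a, Set.mem_ofPred_eq,
    Denumerable.ofNat_encode, Code.eval_curry]
  simp [Code.eval]

/-- the limit lemma -/
lemma limit_KK {F : α → β} (hF : ComputableIn (orc KK) F) :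
    ∃ ap : α → ℕ → β, Computable (fun p : α × ℕ => ap p.1 p.2) ∧
      ∀ a, ∃ s0, ∀ s, s0 ≤ s → ap a s = F a := by
  rcases isEmpty_or_nonempty α with hα | ⟨⟨a0⟩⟩
  · refine ⟨fun a _ => F a, ?_, fun a => ⟨0, fun _ _ => rfl⟩⟩
    exact Partrec.of_eq Partrec.none fun p => isEmptyElim p.1
  let _ : Inhabited α := ⟨a0⟩
  have h1 : Red (fun n => (((Encodable.decode n : Option α).map fun a =>
      Encodable.encode (F a)).getD 0)) KK := by
    unfold Red
    fun_prop
  obtain ⟨e, he⟩ := red_iff.1 h1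
  refine ⟨fun a s => (Encodable.decode ((ev e (pre (KC.stage s) s) (Encodable.encode a)).getD 0)
    : Option β).getD (F a0), toC ?_, fun a => ?_⟩
  · unfold KC.stage
    fun_prop
  · obtain ⟨n, hn⟩ := he (Encodable.encode a)
    obtain ⟨s0, hs0⟩ := KC.stage_pre n
    refine ⟨max s0 n, fun s hs => ?_⟩
    rw [← hs0 s (le_trans (le_max_left _ _) hs)] at hn
    have := ev_mono (pre_isPrefix (KC.stage s) (le_trans (le_max_right _ _) hs)) hn
    simp [this]

end closure

lemma exists_graph (f : ℕ → ℕ) : ∃ A : Set ℕ, Red f (chi A) ∧ Red (chi A) f := by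
  refine ⟨{m | f (Nat.unpair m).1 = (Nat.unpair m).2}, ?_, ?_⟩
  · have h := Red.refl (chi {m | f (Nat.unpair m).1 = (Nat.unpair m).2})
    unfold Red at h ⊢
    refine c_search (P := fun a w =>
      eqB (chi {m | f (Nat.unpair m).1 = (Nat.unpair m).2} (Nat.pair a w)) 1)
      (v := fun _ w => w) (by fun_prop) (by fun_prop) (fun a => ⟨f a, ?_⟩) fun a w hw => ?_
    · simp [KC.chi_eq_one]
    · have h2 := KC.chi_eq_one.1 (eqB_iff.1 hw)
      rw [Set.mem_ofPred_eq, Nat.unpair_pair] at h2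
      exact h2.symm
  · have h := Red.refl f
    unfold Red at h ⊢
    refine cin_of_eq (f := fun m => (eqB (f (Nat.unpair m).1) (Nat.unpair m).2).toNat)
      (by fun_prop) fun m => ?_
    by_cases hm : f (Nat.unpair m).1 = (Nat.unpair m).2
    · rw [chi_mem (A := {m | f (Nat.unpair m).1 = (Nat.unpair m).2}) hm, eqB_iff.2 hm]; rfl
    · rw [chi_notMem (A := {m | f (Nat.unpair m).1 = (Nat.unpair m).2}) hm,
        eqB_false_iff.2 hm]; rfl

lemma isRE_iff {A : Set ℕ} : IsRE A ↔ ∃ R : ℕ → ℕ → Bool,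
    Computable (fun p : ℕ × ℕ => R p.1 p.2) ∧ ∀ n, n ∈ A ↔ ∃ w, R n w = true := by
  constructor
  · rintro ⟨c, hc⟩
    exact ⟨fun n w => (Code.evaln w c n).isSome, toC (by fun_prop), fun n => by
      rw [hc, KC.dom_iff]⟩
  · rintro ⟨R, hR, h⟩
    obtain ⟨c, hc⟩ := KC.exists_code hR
    exact ⟨c, fun n => by rw [h, ← hc]; rfl⟩

open Classical in
lemma IsRE.red_KK {A : Set ℕ} (h : IsRE A) : Red (chi A) KK := by
  obtain ⟨R, hR, h⟩ := isRE_iff.1 h
  refine cin_of_eq (c_toNat (sigma1_KK hR)) fun n => ?_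
  by_cases hn : n ∈ A
  · rw [chi_mem hn, decide_eq_true ((h n).1 hn)]; rfl
  · rw [chi_notMem hn, decide_eq_false fun h' => hn ((h n).2 h')]; rfl

lemma IsRE.exists_enum {A : Set ℕ} (h : IsRE A) : ∃ en, Enum A en := by
  obtain ⟨c, hc⟩ := h
  have key : ∀ s a, cond ((Code.evaln ((Nat.unpair s).2 + 1) c (Nat.unpair s).1).isSome &&
      !(Code.evaln (Nat.unpair s).2 c (Nat.unpair s).1).isSome) (some (Nat.unpair s).1) none
        = some a ↔ (Nat.unpair s).1 = a ∧
      (Code.evaln ((Nat.unpair s).2 + 1) c a).isSome = true ∧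
      ¬ (Code.evaln (Nat.unpair s).2 c a).isSome = true := by
    intro s a
    constructor
    · intro h
      cases h1 : (Code.evaln ((Nat.unpair s).2 + 1) c (Nat.unpair s).1).isSome <;>
        cases h2 : (Code.evaln (Nat.unpair s).2 c (Nat.unpair s).1).isSome <;>
        rw [h1, h2] at h <;> simp at h
      subst h
      exact ⟨rfl, h1, by simp [h2]⟩
    · rintro ⟨rfl, h1, h2⟩
      rw [h1, Bool.eq_false_iff.2 h2]; rfl
  refine ⟨fun s => cond ((Code.evaln ((Nat.unpair s).2 + 1) c (Nat.unpair s).1).isSome &&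
    !(Code.evaln (Nat.unpair s).2 c (Nat.unpair s).1).isSome) (some (Nat.unpair s).1) none,
    toC (by fun_prop), fun a => ?_, fun s t a hs ht => ?_, fun s => ⟨Nat.pair (s + 1) 0, ?_, ?_⟩⟩
  · rw [hc, KC.dom_iff]
    constructor
    · intro h
      have h0 : Nat.find h ≠ 0 := fun h0 => by
        have := Nat.find_spec h
        rw [h0] at this
        simp [Code.evaln] at this
      obtain ⟨k, hk⟩ := Nat.exists_eq_succ_of_ne_zero h0
      refine ⟨Nat.pair a k, (key _ _).2 ?_⟩
      rw [Nat.unpair_pair]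
      refine ⟨rfl, ?_, Nat.find_min h (by omega)⟩
      have := Nat.find_spec h
      rwa [hk] at this
    · rintro ⟨s, hs⟩
      exact ⟨_, ((key _ _).1 hs).2.1⟩
  · obtain ⟨s1, s2, s3⟩ := (key _ _).1 hs
    obtain ⟨t1, t2, t3⟩ := (key _ _).1 ht
    have h1 : ¬ (Nat.unpair s).2 + 1 ≤ (Nat.unpair t).2 := fun h => t3 (KC.isSome_mono h s2)
    have h2 : ¬ (Nat.unpair t).2 + 1 ≤ (Nat.unpair s).2 := fun h => s3 (KC.isSome_mono h t2)
    rw [← Nat.pair_unpair s, ← Nat.pair_unpair t, s1, t1,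
      show (Nat.unpair s).2 = (Nat.unpair t).2 by omega]
  · exact le_trans (Nat.le_succ s) (Nat.left_le_pair _ _)
  · simp only [Nat.unpair_pair]
    cases e : Code.evaln (0 + 1) c (s + 1) with
    | none => rfl
    | some x => have := Code.evaln_bound (x := x) e; omega

lemma cedeg_of_computable {f : ℕ → ℕ} (h : Computable f) : CEdeg f := by
  refine ⟨∅, isRE_iff.2 ⟨fun _ _ => false, Computable.const _, fun n => by simp⟩,
    red_of_computable h _, red_of_computable ?_ _⟩
  exact (Computable.const 0).of_eq fun n => (chi_notMem (Set.notMem_empty n)).symm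

lemma CEdeg.jn {f g : ℕ → ℕ} (hf : CEdeg f) (hg : CEdeg g) : CEdeg (jn f g) := by
  obtain ⟨A, hA, hfA, hAf⟩ := hf
  obtain ⟨B, hB, hgB, hBg⟩ := hg
  obtain ⟨R, hR, hRA⟩ := isRE_iff.1 hA
  obtain ⟨S, hS, hSB⟩ := isRE_iff.1 hB
  let C : Set ℕ := {n | if n % 2 = 0 then n / 2 ∈ A else n / 2 ∈ B}
  have hC : ∀ n, chi C n = cond (eqB (n % 2) 0) (chi A (n / 2)) (chi B (n / 2)) := by
    intro n
    by_cases h : n % 2 = 0
    · rw [eqB_iff.2 h, cond_true]
      by_cases h' : n / 2 ∈ A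
      · rw [chi_mem h', chi_mem (by simp [C, h, h'])]
      · rw [chi_notMem h', chi_notMem (by simp [C, h, h'])]
    · rw [eqB_false_iff.2 h, cond_false]
      by_cases h' : n / 2 ∈ B
      · rw [chi_mem h', chi_mem (by simp [C, h, h'])]
      · rw [chi_notMem h', chi_notMem (by simp [C, h, h'])]
  have hCC := Red.refl (chi C)
  refine ⟨C, isRE_iff.2 ⟨fun n w => cond (eqB (n % 2) 0) (R (n / 2) w) (S (n / 2) w),
    toC (c_cond (by fun_prop) (KC.ofC2 hR (by fun_prop) (by fun_prop))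
      (KC.ofC2 hS (by fun_prop) (by fun_prop))), fun n => ?_⟩,
    Red.jn (hfA.trans ?_) (hgB.trans ?_), ?_⟩
  · by_cases h : n % 2 = 0
    · simp [C, h, eqB, hRA]
    · simp [C, h, eqB, hSB]
  · unfold Red at hCC ⊢
    refine cin_of_eq (f := fun n => chi C (2 * n)) (by fun_prop) fun n => ?_
    rw [hC, eqB_iff.2 (by omega), cond_true, show 2 * n / 2 = n by omega]
  · unfold Red at hCC ⊢
    refine cin_of_eq (f := fun n => chi C (2 * n + 1)) (by fun_prop) fun n => ?_
    rw [hC, eqB_false_iff.2 (by omega), cond_false, show (2 * n + 1) / 2 = n by omega]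
  · have h1 := hAf.trans (red_jn_left f g)
    have h2 := hBg.trans (red_jn_right f g)
    unfold Red at h1 h2 ⊢
    exact cin_of_eq (f := fun n => cond (eqB (n % 2) 0) (chi A (n / 2)) (chi B (n / 2)))
      (by fun_prop) fun n => (hC n).symm

end Pool.Agent.MP_68d28f_lc.CE
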