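import Pool.Agent.MP_68d28f_lc.ce.Kit

/-! Escaping domination. -/

namespace Pool.Agent.MP_68d28f_lc.CE

open Pool.Agent.MP_b427ce_lc

theorem lemA : LemA := by
  intro S _ Y hY hD step bs s0 hstep hbs hst
  let _ : Inhabited S := ⟨s0⟩
  have hstepK : ComputableIn (orc KK) (fun p : S × ℕ => step p.1 p.2) := cin_trans hstep hY
  let R : ℕ → List S := natIter [s0] fun _ l =>
    l.flatMap fun s => (List.range (bs s + 1)).map fun b => step s b
  have hR : ComputableIn (orc KK) R := by
    refine c_seq (F := fun _ l => l.flatMap fun s =>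
      (List.range (bs s + 1)).map fun b => step s b) ?_ fun n => rfl
    fun_prop
  let f : ℕ → ℕ := fun t => lmax ((R t).map bs)
  have hf : Red f KK := by
    unfold Red
    fun_prop
  have : ∃ h, Red h Y ∧ ∀ N, ∃ n, N ≤ n ∧ f n < h n := by
    by_contra hc
    refine hD ⟨f, hf, fun h hh => ?_⟩
    by_contra hc'
    refine hc ⟨h, hh, fun N => ?_⟩
    by_contra hc''
    exact hc' ⟨N, fun n hn => by
      by_contra h3
      exact hc'' ⟨n, hn, by omega⟩⟩
  obtain ⟨h, hh, hinf⟩ := this
  have hh' : ComputableIn (orc Y) h := hh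
  let st : ℕ → S := natIter s0 fun t s => step s (h t)
  have hmem : ∀ t, st t ∈ R t := by
    intro t
    induction t with
    | zero => exact List.mem_singleton.2 rfl
    | succ t ih =>
      show step (st t) (h t) ∈ (R t).flatMap fun s =>
        (List.range (bs s + 1)).map fun b => step s b
      refine List.mem_flatMap.2 ⟨st t, ih, List.mem_map.2 ?_⟩
      by_cases hb : bs (st t) ≤ h t
      · exact ⟨bs (st t), List.mem_range.2 (Nat.lt_succ_self _), (hst _ _ hb).symm⟩
      · exact ⟨h t, List.mem_range.2 (by omega), rfl⟩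
  refine ⟨st, h, c_seq (F := fun t s => step s (h t)) (by fun_prop) fun n => rfl, rfl,
    fun t => rfl, fun N => ?_⟩
  obtain ⟨n, hn, hlt⟩ := hinf N
  exact ⟨n, hn, le_trans (le_lmax (List.mem_map.2 ⟨st n, hmem n, rfl⟩)) hlt.le⟩

end Pool.Agent.MP_68d28f_lc.CE
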