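import Pool.Agent.MP_68d28f_lc.ce.Kit

/-! Using domination: histories with true moduli are certificates that can be refuted. -/

namespace Pool.Agent.MP_68d28f_lc.CE

open Pool.Agent.MP_b427ce_lc

namespace LB

variable {S : Type}

lemma cin2 {α β γ δ : Type} [Primcodable α] [Primcodable β] [Primcodable γ] [Primcodable δ]
    {O : Set (ℕ →. ℕ)} {R : α → β → γ} (hR : ComputableIn O fun p : α × β => R p.1 p.2)
    {f : δ → α} {g : δ → β} (hf : ComputableIn O f) (hg : ComputableIn O g) :
    ComputableIn O fun a => R (f a) (g a) :=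
  c_comp (f := fun p : α × β => R p.1 p.2) hR (c_pair hf hg)

/-- position `j` of the history `c` is refuted at stage `u` -/
def bad [DecidableEq S] (ap : List (S × ℕ) → ℕ → S) (d : S × ℕ) (c : List (S × ℕ)) (u j : ℕ) :
    Bool :=
  (!eqB (ap (c.drop (j + 1)) ((c.getD j d).2 + u)) (c.getD j d).1) ||
    (leB 1 (c.getD j d).2 && eqB (ap (c.drop (j + 1)) ((c.getD j d).2 - 1)) (c.getD j d).1)

/-- the true histories -/
def hist (H : List (S × ℕ) → S × ℕ) : ℕ → List (S × ℕ)
  | 0 => []
  | n + 1 => H (hist H n) :: hist H n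

lemma length_hist (H : List (S × ℕ) → S × ℕ) (n : ℕ) : (hist H n).length = n := by
  induction n with
  | zero => rfl
  | succ n ih => simp [hist, ih]

lemma eq_hist_iff (H : List (S × ℕ) → S × ℕ) (d : S × ℕ) (c : List (S × ℕ)) :
    c = hist H c.length ↔ ∀ j, j < c.length → c.getD j d = H (c.drop (j + 1)) := by
  induction c with
  | nil => simp [hist]
  | cons x c ih =>
    constructor
    · intro h j hj
      obtain ⟨h1, h2⟩ := List.cons.inj (show x :: c = H (hist H c.length) :: hist H c.length from h)
      cases j with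
      | zero => rw [← h2] at h1; simpa using h1
      | succ j => simpa using ih.1 h2 j (by simpa using hj)
    · intro h
      have h2 := ih.2 fun j hj => by simpa using h (j + 1) (by simpa using hj)
      have h1 : x = H c := by simpa using h 0 (by simp)
      change x :: c = H (hist H c.length) :: hist H c.length
      rw [← h2, ← h1]

end LB

open LB in
theorem lemB : LemB := by
  classical
  rintro S _ X ⟨f, hf, hdom⟩ step s0 hstep
  unfold Red at hf
  let bb : List (S × ℕ) → ℕ := fun c =>
    max c.length (f (Nat.pair c.length (Encodable.encode c)))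
  let top : List (S × ℕ) → S := fun c => (c.getD 0 (s0, 0)).1
  have hbb : ComputableIn (orc KK) bb := by unfold bb; fun_prop
  have htop : ∀ O, ComputableIn O top := fun O => by unfold top; fun_prop
  have hG : ComputableIn (orc KK) fun c => step (top c) (bb c) :=
    c_comp hstep (c_pair (htop _) hbb)
  obtain ⟨ap, hap, hlim⟩ := limit_KK hG
  have hex : ∀ c, ∃ t, ∀ u, t ≤ u → ap c u = step (top c) (bb c) := hlim
  -- the modulus of the approximation
  have hstab : ∀ c t, (¬ ∃ u, (!eqB (ap c (t + u)) (ap c t)) = true) ↔ Nat.find (hex c) ≤ t := by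
    intro c t
    rw [Nat.find_le_iff]
    constructor
    · intro h
      refine ⟨t, le_rfl, ?_⟩
      have h1 : ∀ u, ap c (t + u) = ap c t := fun u => by
        by_contra h2
        exact h ⟨u, by simp [h2]⟩
      obtain ⟨t0, ht0⟩ := hex c
      intro u hu
      obtain ⟨v, rfl⟩ := Nat.exists_eq_add_of_le hu
      rw [h1, ← h1 t0, ht0 _ (by omega)]
    · rintro ⟨m, hm, h⟩ ⟨u, hu⟩
      rw [h _ (by omega), h _ hm] at hu
      simp at hu
  have hmod : ComputableIn (orc KK) fun c => Nat.find (hex c) := by
    have h1 : ComputableIn (orc KK) fun p : List (S × ℕ) × ℕ =>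
        !decide (∃ u, (!eqB (ap p.1 (p.2 + u)) (ap p.1 p.2)) = true) :=
      c_not (sigma1_KK (R := fun (p : List (S × ℕ) × ℕ) u => !eqB (ap p.1 (p.2 + u)) (ap p.1 p.2))
        (toC (c_not (c_eqB (KC.ofC2 hap (by fun_prop) (by fun_prop))
          (KC.ofC2 hap (by fun_prop) (by fun_prop))))))
    have h2 : ∀ c, ∃ t, (!decide (∃ u, (!eqB (ap c (t + u)) (ap c t)) = true)) = true :=
      fun c => ⟨Nat.find (hex c), by
        rw [decide_eq_false ((hstab c _).2 le_rfl)]; rfl⟩
    refine cin_of_eq (c_find (p := fun c t =>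
      !decide (∃ u, (!eqB (ap c (t + u)) (ap c t)) = true)) h1 h2) fun c => ?_
    apply le_antisymm
    · exact Nat.find_min' (h2 c) (by rw [decide_eq_false ((hstab c _).2 le_rfl)]; rfl)
    · refine (hstab c _).1 ?_
      have := Nat.find_spec (h2 c)
      rwa [Bool.not_eq_true', decide_eq_false_iff_not] at this
  let H : List (S × ℕ) → S × ℕ := fun c => (step (top c) (bb c), Nat.find (hex c))
  have hH : ComputableIn (orc KK) H := c_pair hG hmod
  have hhist : ComputableIn (orc KK) (hist H) :=
    c_seq (F := fun _ c => H c :: c) (by fun_prop) fun _ => rfl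
  -- refutations
  have hbad : ∀ c j, (∀ u, bad ap (s0, 0) c u j = false) ↔
      c.getD j (s0, 0) = H (c.drop (j + 1)) := by
    intro c j
    unfold bad
    generalize c.getD j (s0, 0) = x
    generalize c.drop (j + 1) = c'
    obtain ⟨s, t⟩ := x
    simp only [Bool.or_eq_false_iff, Bool.not_eq_false', eqB_iff, Bool.and_eq_false_iff,
      leB_false_iff, eqB_false_iff, H, Prod.mk.injEq]
    constructor
    · intro h
      obtain ⟨t0, ht0⟩ := hex c'
      have h1 : s = step (top c') (bb c') := by rw [← (h t0).1, ht0 _ (by omega)]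
      refine ⟨h1, le_antisymm ?_ ?_⟩
      · by_contra h2
        rcases (h 0).2 with h3 | h3
        · omega
        · exact h3 ((Nat.find_spec (hex c') _ (by omega)).trans h1.symm)
      · refine Nat.find_min' (hex c') fun u hu => ?_
        obtain ⟨v, rfl⟩ := Nat.exists_eq_add_of_le hu
        rw [(h v).1, h1]
    · rintro ⟨rfl, rfl⟩ u
      refine ⟨Nat.find_spec (hex c') _ (by omega), ?_⟩
      by_cases h0 : Nat.find (hex c') < 1
      · exact Or.inl h0
      · refine Or.inr fun h => Nat.find_min (hex c') (m := Nat.find (hex c') - 1) (by omega) ?_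
        intro v hv
        rcases eq_or_lt_of_le hv with h1 | h1
        · rw [← h1, h]
        · exact Nat.find_spec (hex c') _ (by omega)
  refine ⟨fun i => top (hist H i), fun i => bb (hist H i), c_comp (htop _) hhist, rfl,
    fun i => rfl, fun N => ⟨N, fun i hi => ?_⟩, fun W hW i0 hall => ?_⟩
  · exact le_trans (by rw [length_hist]; exact hi) (le_max_left _ _)
  let P : List (S × ℕ) → ℕ → Bool := fun c u => (!leB i0 c.length) ||
    ((List.range c.length).any fun j => bad ap (s0, 0) c u j) ||
      (List.range u).any fun w => W (top c) w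
  have hP : ComputableIn (orc X) fun p : List (S × ℕ) × ℕ => P p.1 p.2 := by
    have h1 : ComputableIn (orc X) fun p : (List (S × ℕ) × ℕ) × ℕ =>
        bad ap (s0, 0) p.1.1 p.1.2 p.2 := by
      unfold bad
      exact c_or (c_not (c_eqB (KC.ofC2 hap (by fun_prop) (by fun_prop)) (by fun_prop)))
        (c_and (by fun_prop) (c_eqB (KC.ofC2 hap (by fun_prop) (by fun_prop)) (by fun_prop)))
    have h2 : ComputableIn (orc X) fun p : (List (S × ℕ) × ℕ) × ℕ => W (top p.1.1) p.2 :=
      cin2 hW (c_comp (g := fun p : (List (S × ℕ) × ℕ) × ℕ => p.1.1) (htop _) (by fun_prop))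
        (by fun_prop)
    exact c_or (c_or (by fun_prop)
      (c_any (g := fun (p : List (S × ℕ) × ℕ) j => bad ap (s0, 0) p.1 p.2 j) (by fun_prop) h1))
      (c_any (g := fun (p : List (S × ℕ) × ℕ) w => W (top p.1) w) (by fun_prop) h2)
  have hPex : ∀ c, ∃ u, P c u = true := by
    intro c
    by_cases h1 : i0 ≤ c.length
    · by_cases h2 : c = hist H c.length
      · obtain ⟨w, hw⟩ := hall _ h1
        simp only [← h2] at hw
        refine ⟨w + 1, ?_⟩
        simp only [P, Bool.or_eq_true, List.any_eq_true, List.mem_range]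
        exact Or.inr ⟨w, by omega, hw⟩
      · rw [eq_hist_iff H (s0, 0)] at h2
        push Not at h2
        obtain ⟨j, hj, h2⟩ := h2
        rw [Ne, ← hbad] at h2
        push Not at h2
        obtain ⟨u, hu⟩ := h2
        refine ⟨u, ?_⟩
        simp only [P, Bool.or_eq_true, List.any_eq_true, List.mem_range]
        exact Or.inl (Or.inr ⟨j, hj, by simpa using hu⟩)
    · exact ⟨0, by simp [P, h1, leB]⟩
  have hh : Red (fun n => Nat.find (hPex
      ((Encodable.decode (Nat.unpair n).2 : Option (List (S × ℕ))).getD []))) X :=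
    c_comp (c_find hP hPex) (by fun_prop)
  obtain ⟨N, hN⟩ := hdom _ hh
  refine ⟨max N i0, fun i hi => ?_⟩
  have h1 : Nat.find (hPex (hist H i)) ≤ f (Nat.pair i (Encodable.encode (hist H i))) := by
    have h0 := hN (Nat.pair i (Encodable.encode (hist H i)))
      (le_trans (le_trans (le_max_left _ _) hi) (Nat.left_le_pair _ _))
    refine le_trans (le_of_eq ?_) h0
    congr 1
    simp
  have h2 := Nat.find_spec (hPex (hist H i))
  generalize Nat.find (hPex (hist H i)) = m at h1 h2
  simp only [P, Bool.or_eq_true, List.any_eq_true, List.mem_range, Bool.not_eq_true',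
    leB_false_iff, length_hist] at h2
  rcases h2 with (h2 | ⟨j, hj, h2⟩) | ⟨w, hw, h2⟩
  · have := le_trans (le_max_right _ _) hi
    omega
  · have h3 := (eq_hist_iff H (s0, 0) (hist H i)).1 (by rw [length_hist]) j
      (by rw [length_hist]; exact hj)
    rw [(hbad _ _).2 h3] at h2
    exact absurd h2 (by simp)
  · refine ⟨w, lt_of_lt_of_le hw (le_trans h1 ?_), h2⟩
    simp only [bb, length_hist]
    exact le_max_right _ _

end Pool.Agent.MP_68d28f_lc.CE
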