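import Pool.Agent.MP_68d28f_lc.ce.Kit

/-! Unrefuted certificates give a computably enumerable degree. -/

namespace Pool.Agent.MP_68d28f_lc.CE

open Pool.Agent.MP_b427ce_lc

/-- stage `t` witnesses that the value guessed at stage `s` for position `j` is refuted -/
def refB {S : Type} (ap : ℕ → ℕ → S) (val : S → ℕ) (R : ℕ → S → ℕ → Bool) (j s t : ℕ) : Bool :=
  leB s t && (List.range (t + 1)).all fun u =>
    !(leB s u) || !(eqB (val (ap j u)) (val (ap j s))) ||
      (List.range (t + 1)).any fun t' => R j (ap j u) t'

lemma refB_iff {S : Type} {ap : ℕ → ℕ → S} {val : S → ℕ} {R : ℕ → S → ℕ → Bool} {j s t : ℕ} :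
    refB ap val R j s t = true ↔ s ≤ t ∧ ∀ u, u ≤ t → s ≤ u → val (ap j u) = val (ap j s) →
      ∃ t', t' ≤ t ∧ R j (ap j u) t' = true := by
  simp only [refB, Bool.and_eq_true, leB_iff, List.all_eq_true, List.mem_range, Bool.or_eq_true,
    Bool.not_eq_true', leB_false_iff, eqB_false_iff, List.any_eq_true, Nat.lt_succ_iff]
  refine and_congr_right fun _ => forall_congr' fun u => forall_congr' fun _ => ?_
  constructor
  · rintro ((h | h) | h) h1 h2
    · omega
    · exact absurd h2 h
    · exact h
  · intro h
    by_cases h1 : s ≤ u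
    · by_cases h2 : val (ap j u) = val (ap j s)
      · exact Or.inr (h h1 h2)
      · exact Or.inl (Or.inr h2)
    · exact Or.inl (Or.inl (by omega))

theorem lemC : LemC := by
  intro S _ X hX θ val R hθ hval hR h1 h2
  obtain ⟨ap, hap, hlim⟩ := limit_KK (cin_trans hθ hX)
  have hv : ∀ j, val (θ j) = X j := fun j => h2 j _ (h1 j)
  have cref : ∀ O : Set (ℕ →. ℕ),
      ComputableIn O fun p : ℕ × ℕ × ℕ => refB ap val R p.1 p.2.1 p.2.2 := by
    intro O
    have hap' : ComputableIn O fun p : ℕ × ℕ => ap p.1 p.2 := ofC hap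
    have hval' : ComputableIn O val := ofC hval
    have hR' : ComputableIn O fun p : ℕ × S × ℕ => R p.1 p.2.1 p.2.2 := ofC hR
    unfold refB
    fun_prop
  let V : Set ℕ := {n | ∃ t, refB ap val R (Nat.unpair n).1 (Nat.unpair n).2 t = true}
  have hwrong : ∀ j s, val (ap j s) ≠ X j → ∃ t, refB ap val R j s t = true := by
    intro j s hne
    obtain ⟨s0, hs0⟩ := hlim j
    have : ∀ u, ∃ t', val (ap j u) ≠ X j → R j (ap j u) t' = true := by
      intro u
      by_contra hc
      push Not at hc
      exact (hc 0).1 (h2 j _ fun t => by simpa using (hc t).2)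
    choose w hw using this
    refine ⟨max s ((Finset.range s0).sup w), refB_iff.2 ⟨le_max_left _ _, fun u _ _ hu => ?_⟩⟩
    have hu0 : u < s0 := by
      by_contra hc
      rw [hs0 u (by omega), hv] at hu
      exact hne hu.symm
    exact ⟨w u, le_trans (Finset.le_sup (f := w) (Finset.mem_range.2 hu0)) (le_max_right _ _),
      hw u (by rw [hu]; exact hne)⟩
  have hright : ∀ j s u t, val (ap j s) = X j → s ≤ u → ap j u = θ j →
      refB ap val R j s t = true → t < u := by
    intro j s u t he hsu hu ht
    by_contra hc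
    obtain ⟨t', -, h⟩ := (refB_iff.1 ht).2 u (by omega) hsu (by rw [hu, hv, he])
    rw [hu, h1] at h
    exact absurd h (by simp)
  refine ⟨V, isRE_iff.2 ⟨fun n t => refB ap val R (Nat.unpair n).1 (Nat.unpair n).2 t,
    toC (c_comp (cref ∅) (g := fun p : ℕ × ℕ => ((Nat.unpair p.1).1, (Nat.unpair p.1).2, p.2))
      (by fun_prop)), fun _ => Iff.rfl⟩, ?_, ?_⟩
  · have hV : ComputableIn (orc (chi V)) (chi V) := Red.refl _
    have hap' : ComputableIn (orc (chi V)) fun p : ℕ × ℕ => ap p.1 p.2 := ofC hap
    have hval' : ComputableIn (orc (chi V)) val := ofC hval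
    refine c_search (P := fun j s => eqB (chi V (Nat.pair j s)) 0)
      (v := fun j s => val (ap j s)) (by fun_prop) (by fun_prop) ?_ ?_
    · intro j
      obtain ⟨s0, hs0⟩ := hlim j
      refine ⟨s0, eqB_iff.2 (chi_notMem ?_)⟩
      rintro ⟨t, ht⟩
      simp only [Nat.unpair_pair] at ht
      have := hright j s0 s0 t (by rw [hs0 s0 le_rfl, hv]) le_rfl (hs0 s0 le_rfl) ht
      have := (refB_iff.1 ht).1
      omega
    · intro j s hs
      by_contra hne
      have hmem : Nat.pair j s ∈ V := by
        simpa [V] using hwrong j s hne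
      rw [chi_mem hmem] at hs
      simp at hs
  · have hXX : ComputableIn (orc X) X := Red.refl _
    have hap' : ComputableIn (orc X) fun p : ℕ × ℕ => ap p.1 p.2 := ofC hap
    have hval' : ComputableIn (orc X) val := ofC hval
    have cr := cref (orc X)
    refine c_search
      (P := fun n w => leB (Nat.unpair n).2 w && eqB (Encodable.encode (ap (Nat.unpair n).1 w))
        (Encodable.encode (θ (Nat.unpair n).1)))
      (v := fun n w => cond (eqB (val (ap (Nat.unpair n).1 (Nat.unpair n).2)) (X (Nat.unpair n).1))
        (cond ((List.range w).any fun t => refB ap val R (Nat.unpair n).1 (Nat.unpair n).2 t) 1 0)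
        1) (by fun_prop) (by fun_prop) ?_ ?_
    · intro n
      obtain ⟨s0, hs0⟩ := hlim (Nat.unpair n).1
      refine ⟨max s0 (Nat.unpair n).2, ?_⟩
      simp [hs0 _ (le_max_left _ _)]
    · intro n w hw
      simp only [Bool.and_eq_true, leB_iff, eqB_iff, Encodable.encode_inj] at hw
      by_cases he : val (ap (Nat.unpair n).1 (Nat.unpair n).2) = X (Nat.unpair n).1
      · rw [eqB_iff.2 he, cond_true]
        by_cases hn : n ∈ V
        · rw [chi_mem hn]
          obtain ⟨t, ht⟩ := hn
          have hlt := hright _ _ w t he hw.1 hw.2 ht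
          have : ((List.range w).any fun t =>
              refB ap val R (Nat.unpair n).1 (Nat.unpair n).2 t) = true :=
            List.any_eq_true.2 ⟨t, List.mem_range.2 hlt, ht⟩
          rw [this, cond_true]
        · rw [chi_notMem hn]
          have : ((List.range w).any fun t =>
              refB ap val R (Nat.unpair n).1 (Nat.unpair n).2 t) = false := by
            by_contra hc
            obtain ⟨t, -, ht⟩ := List.any_eq_true.1 (by simpa only [Bool.not_eq_false] using hc)
            exact hn ⟨t, ht⟩
          rw [this, cond_false]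
      · rw [eqB_false_iff.2 he, cond_false, chi_mem (show n ∈ V from hwrong _ _ he)]

end Pool.Agent.MP_68d28f_lc.CE
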