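import Pool.Agent.MP_68d28f_lc.ce.KitA

/-! The lexicographic order of tree nodes: initial segments, the relation left of, children. -/

namespace Pool.Agent.MP_68d28f_lc.CE

open Pool.Agent.MP_b427ce_lc

/-- `a` is to the left of `b` -/
def lft (a b : List ℕ) : Prop := a < b ∧ ¬ a <+: b

/-- two strings are incompatible -/
def inc (a b : List ℕ) : Prop := ¬ a <+: b ∧ ¬ b <+: a

/-- boolean test for left of -/
def lftB (a b : List ℕ) : Bool := ltB a b && !preB a b

@[simp] lemma lftB_iff {a b : List ℕ} : lftB a b = true ↔ lft a b := by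
  simp only [lftB, lft, Bool.and_eq_true, ltB_iff, Bool.not_eq_true', ← preB_iff,
    Bool.not_eq_true]

@[fun_prop] lemma c_lftB {α : Type} [Primcodable α] {O : Set (ℕ →. ℕ)} {f g : α → List ℕ}
    (hf : ComputableIn O f) (hg : ComputableIn O g) :
    ComputableIn O fun a => lftB (f a) (g a) := by
  unfold lftB; fun_prop

lemma lft_iff {a b : List ℕ} :
    lft a b ↔ ∃ p i j, i < j ∧ p ++ [i] <+: a ∧ p ++ [j] <+: b := by
  unfold lft
  induction a generalizing b with
  | nil => simp
  | cons x a ih =>
    cases b with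
    | nil => simp
    | cons y b =>
      rw [List.cons_lt_cons_iff, List.cons_prefix_cons]
      constructor
      · rintro ⟨h | ⟨rfl, h⟩, h'⟩
        · exact ⟨[], x, y, h, by simp, by simp⟩
        · obtain ⟨p, i, j, hij, h1, h2⟩ := ih.1 ⟨h, fun hp => h' ⟨rfl, hp⟩⟩
          exact ⟨x :: p, i, j, hij, by simpa using h1, by simpa using h2⟩
      · rintro ⟨p, i, j, hij, h1, h2⟩
        cases p with
        | nil =>
          simp only [List.nil_append, List.cons_prefix_cons] at h1 h2
          obtain ⟨rfl, -⟩ := h1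
          obtain ⟨rfl, -⟩ := h2
          exact ⟨Or.inl hij, fun h => by omega⟩
        | cons z p =>
          simp only [List.cons_append, List.cons_prefix_cons] at h1 h2
          obtain ⟨rfl, h1⟩ := h1
          obtain ⟨rfl, h2⟩ := h2
          have := ih.2 ⟨p, i, j, hij, h1, h2⟩
          exact ⟨Or.inr ⟨rfl, this.1⟩, fun h => this.2 h.2⟩

lemma lt_of_prefix {a b : List ℕ} (h : a <+: b) (hne : a ≠ b) : a < b := by
  obtain ⟨u, rfl⟩ := h
  induction a with
  | nil =>
    cases u with
    | nil => simp at hne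
    | cons k u => exact List.nil_lt_cons _ _
  | cons x a ih =>
    exact List.cons_lt_cons_iff.2 (Or.inr ⟨rfl, ih fun h => hne (congrArg (List.cons x) h)⟩)

lemma le_of_prefix {a b : List ℕ} (h : a <+: b) : a ≤ b := by
  by_cases hne : a = b
  · exact le_of_eq hne
  · exact (lt_of_prefix h hne).le

lemma lt_concat (a : List ℕ) (k : ℕ) : a < a ++ [k] :=
  lt_of_prefix (List.prefix_append _ _) (by simp)

lemma lft.lt {a b : List ℕ} (h : lft a b) : a < b := h.1

lemma lft.not_prefix {a b : List ℕ} (h : lft a b) : ¬ a <+: b := h.2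

lemma lft.not_prefix' {a b : List ℕ} (h : lft a b) : ¬ b <+: a :=
  fun h' => absurd h.1 (not_lt.2 (le_of_prefix h'))

lemma lft.inc {a b : List ℕ} (h : lft a b) : inc a b := ⟨h.not_prefix, h.not_prefix'⟩

lemma lft.mono {a b a' b' : List ℕ} (h : lft a b) (ha : a <+: a') (hb : b <+: b') :
    lft a' b' := by
  obtain ⟨p, i, j, hij, h1, h2⟩ := lft_iff.1 h
  exact lft_iff.2 ⟨p, i, j, hij, h1.trans ha, h2.trans hb⟩

lemma lft_concat (p : List ℕ) {i j : ℕ} (h : i < j) : lft (p ++ [i]) (p ++ [j]) :=
  lft_iff.2 ⟨p, i, j, h, List.prefix_refl _, List.prefix_refl _⟩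

lemma lft_irrefl (a : List ℕ) : ¬ lft a a := fun h => h.2 (List.prefix_refl _)

lemma lt_iff_prefix_or_lft {a b : List ℕ} : a < b ↔ (a <+: b ∧ a ≠ b) ∨ lft a b := by
  constructor
  · intro h
    by_cases hp : a <+: b
    · exact Or.inl ⟨hp, ne_of_lt h⟩
    · exact Or.inr ⟨h, hp⟩
  · rintro (h | h)
    · exact lt_of_prefix h.1 h.2
    · exact h.1

lemma le_iff_prefix_or_lft {a b : List ℕ} : a ≤ b ↔ a <+: b ∨ lft a b := by
  constructor
  · intro h
    by_cases hp : a <+: b
    · exact Or.inl hp
    · exact Or.inr ⟨lt_of_le_of_ne h (by rintro rfl; exact hp (List.prefix_refl _)), hp⟩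
  · rintro (h | h)
    · exact le_of_prefix h
    · exact h.1.le

/-- the four possible positions of two nodes -/
lemma pos_cases (a b : List ℕ) : a <+: b ∨ b <+: a ∨ lft a b ∨ lft b a := by
  rcases le_total a b with h | h
  · rcases le_iff_prefix_or_lft.1 h with h | h
    · exact Or.inl h
    · exact Or.inr (Or.inr (Or.inl h))
  · rcases le_iff_prefix_or_lft.1 h with h | h
    · exact Or.inr (Or.inl h)
    · exact Or.inr (Or.inr (Or.inr h))

lemma inc_iff {a b : List ℕ} : inc a b ↔ lft a b ∨ lft b a := by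
  constructor
  · intro h
    rcases pos_cases a b with h' | h' | h' | h'
    · exact absurd h' h.1
    · exact absurd h' h.2
    · exact Or.inl h'
    · exact Or.inr h'
  · rintro (h | h)
    · exact h.inc
    · exact ⟨h.not_prefix', h.not_prefix⟩

lemma inc.symm {a b : List ℕ} (h : inc a b) : inc b a := ⟨h.2, h.1⟩

lemma inc.mono {a b a' b' : List ℕ} (h : inc a b) (ha : a <+: a') (hb : b <+: b') :
    inc a' b' := by
  rcases inc_iff.1 h with h | h
  · exact (h.mono ha hb).inc
  · exact (h.mono hb ha).inc.symm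

lemma inc.not_both {a b c : List ℕ} (h : inc a b) (ha : a <+: c) (hb : b <+: c) : False :=
  (h.mono ha hb).1 (List.prefix_refl _)

lemma inc_concat (p : List ℕ) {i j : ℕ} (h : i ≠ j) : inc (p ++ [i]) (p ++ [j]) := by
  rcases Nat.lt_or_gt_of_ne h with h | h
  · exact (lft_concat p h).inc
  · exact (lft_concat p h).inc.symm

/-- to the left of `b` and below `c` in the order: to the left of `c` -/
lemma lft.trans_le {a b c : List ℕ} (h : lft a b) (h' : b ≤ c) : lft a c := by
  refine ⟨lt_of_lt_of_le h.1 h', fun hp => ?_⟩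
  exact absurd (h.mono hp (List.prefix_refl b)).1 (not_lt.2 h')

lemma lft.trans {a b c : List ℕ} (h : lft a b) (h' : lft b c) : lft a c := h.trans_le h'.1.le

/-- at most `b`, with `b` left of `c`: left of `c` or a common initial segment -/
lemma lft_or_prefix_of_le {a b c : List ℕ} (h : a ≤ b) (h' : lft b c) :
    lft a c ∨ (a <+: b ∧ a <+: c) := by
  rcases le_iff_prefix_or_lft.1 h with h1 | h1
  · by_cases h2 : a <+: c
    · exact Or.inr ⟨h1, h2⟩
    · exact Or.inl ⟨lt_of_le_of_lt h h'.1, h2⟩
  · exact Or.inl (h1.trans h')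

/-- the extensions of a node form an interval -/
lemma prefix_of_le_of_le {p x y : List ℕ} (h1 : p ≤ x) (h2 : x ≤ y) (hp : p <+: y) : p <+: x := by
  rcases le_iff_prefix_or_lft.1 h1 with h | h
  · exact h
  · exact absurd hp (h.trans_le h2).2

/-- if `a` is left of an extension of `p`, it is left of `p` or extends `p` -/
lemma lft.of_prefix {a p y : List ℕ} (h : lft a y) (hp : p <+: y) : lft a p ∨ p <+: a := by
  rcases pos_cases a p with h' | h' | h' | h'
  · exact absurd (h'.trans hp) h.2
  · exact Or.inr h'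
  · exact Or.inl h'
  · exact absurd (h'.mono hp (List.prefix_refl a)).1 (not_lt.2 h.1.le)

/-- if an extension of `p` is left of `b`, then `p` is left of `b` or below `b` -/
lemma lft.of_prefix_left {p a b : List ℕ} (h : lft a b) (hp : p <+: a) : lft p b ∨ p <+: b := by
  rcases lft_or_prefix_of_le (le_of_prefix hp) h with h' | h'
  · exact Or.inl h'
  · exact Or.inr h'.2

lemma exists_concat_prefix {p x : List ℕ} (h : p <+: x) (hne : p ≠ x) :
    ∃ k, p ++ [k] <+: x := by
  obtain ⟨u, rfl⟩ := h
  cases u with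
  | nil => simp at hne
  | cons k u => exact ⟨k, u, by simp⟩

lemma prefix_concat_cases {x p : List ℕ} {k : ℕ} (h : x <+: p ++ [k]) :
    x = p ++ [k] ∨ x <+: p := List.prefix_concat_iff.1 h

lemma concat_prefix_unique {p x : List ℕ} {i j : ℕ} (h1 : p ++ [i] <+: x)
    (h2 : p ++ [j] <+: x) : i = j := by
  by_contra h
  exact (inc_concat p h).not_both h1 h2

lemma prefix_of_concat_prefix {p x : List ℕ} {k : ℕ} (h : p ++ [k] <+: x) : p <+: x :=
  (List.prefix_append _ _).trans h

/-- the nodes below a child in the order -/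
lemma lt_concat_iff {x p : List ℕ} {k : ℕ} :
    x < p ++ [k] ↔ x ≤ p ∨ ∃ j, j < k ∧ p ++ [j] <+: x := by
  constructor
  · intro h
    by_cases hx : x ≤ p
    · exact Or.inl hx
    · have hpx : p < x := not_le.1 hx
      have hp : p <+: x := prefix_of_le_of_le hpx.le h.le (List.prefix_append _ _)
      obtain ⟨j, hj⟩ := exists_concat_prefix hp (ne_of_lt hpx)
      refine Or.inr ⟨j, ?_, hj⟩
      by_contra hc
      rcases Nat.eq_or_lt_of_le (not_lt.1 hc) with rfl | hlt
      · exact absurd h (not_lt.2 (le_of_prefix hj))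
      · exact absurd h (not_lt.2 ((lft_concat p hlt).mono (List.prefix_refl _) hj).1.le)
  · rintro (h | ⟨j, hj, h⟩)
    · exact lt_of_le_of_lt h (lt_concat p k)
    · exact ((lft_concat p hj).mono h (List.prefix_refl _)).1

/-- the child `0` is the immediate successor -/
lemma lt_concat_zero_iff {x p : List ℕ} : x < p ++ [0] ↔ x ≤ p := by
  simp [lt_concat_iff]

/-- the nodes left of a child -/
lemma lft_concat_iff {x p : List ℕ} {k : ℕ} :
    lft x (p ++ [k]) ↔ lft x p ∨ ∃ j, j < k ∧ p ++ [j] <+: x := by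
  constructor
  · intro h
    rcases lt_concat_iff.1 h.1 with h' | h'
    · rcases le_iff_prefix_or_lft.1 h' with h'' | h''
      · exact absurd (h''.trans (List.prefix_append _ _)) h.2
      · exact Or.inl h''
    · exact Or.inr h'
  · rintro (h | ⟨j, hj, h⟩)
    · exact h.mono (List.prefix_refl _) (List.prefix_append _ _)
    · exact (lft_concat p hj).mono h (List.prefix_refl _)

/-- the nodes right of a child -/
lemma concat_lft_iff {x p : List ℕ} {k : ℕ} :
    lft (p ++ [k]) x ↔ lft p x ∨ ∃ j, k < j ∧ p ++ [j] <+: x := by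
  constructor
  · intro h
    rcases h.of_prefix_left (List.prefix_append p [k]) with h' | h'
    · exact Or.inl h'
    · have hne : p ≠ x := by
        rintro rfl
        exact h.not_prefix' (List.prefix_append _ _)
      obtain ⟨j, hj⟩ := exists_concat_prefix h' hne
      refine Or.inr ⟨j, ?_, hj⟩
      by_contra hc
      rcases Nat.eq_or_lt_of_le (not_lt.1 hc) with rfl | hlt
      · exact h.2 hj
      · exact absurd h.1 (not_lt.2 ((lft_concat p hlt).mono hj (List.prefix_refl _)).1.le)
  · rintro (h | ⟨j, hj, h⟩)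
    · exact h.mono (List.prefix_append _ _) (List.prefix_refl _)
    · exact (lft_concat p hj).mono (List.prefix_refl _) h

lemma concat_lt_concat_iff {p : List ℕ} {i j : ℕ} : p ++ [i] < p ++ [j] ↔ i < j := by
  refine ⟨fun h => ?_, fun h => (lft_concat p h).1⟩
  by_contra hc
  rcases Nat.eq_or_lt_of_le (not_lt.1 hc) with rfl | hlt
  · exact lt_irrefl _ h
  · exact lt_asymm h (lft_concat p hlt).1

end Pool.Agent.MP_68d28f_lc.CE
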