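import Pool.Agent.MP_68d28f_lc.ce.t1.Inv
import Pool.Agent.MP_68d28f_lc.ce.t1.Path
import Pool.Agent.MP_68d28f_lc.ce.t1.Impl
import Pool.Agent.MP_68d28f_lc.ce.t1.Main

/-! Block T1: minimal covers below a relatively c.e. degree escape every smaller degree. -/

namespace Pool.Agent.MP_68d28f_lc.CE

theorem t1 : T1 := Meet.stMain Meet.stInv Meet.stPath Meet.stImpl

end Pool.Agent.MP_68d28f_lc.CE
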