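import Pool.Agent.MP_68d28f_lc.ce.T3

/-!
A c.e. set splits into two c.e. sets below degrees without the join property.
-/

namespace Pool.Agent.MP_68d28f_lc.CE.H

open Pool.Agent.MP_b427ce_lc Encodable J

/-- the log of the construction: level of the event and enumerated codes, stage by stage -/
abbrev Lg := List (ℕ × List ℕ)

/-- the code `u` has been enumerated -/
def mem (L : Lg) (u : ℕ) : Bool := L.any fun r => memB u r.2

/-- the stage after the last event of level below `k` -/
def bb (L : Lg) (k : ℕ) : ℕ :=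
  natIter 0 (fun t acc => cond (leB ((L.getD t (0, [])).1 + 1) k) (t + 1) acc) L.length

/-- the third component -/
def uu (u : ℕ → Bool) (i n : ℕ) : ℕ := (u (6 * n + 4 + i)).toNat

/-- the three components of side `i` -/
def zz (u : ℕ → Bool) (i n : ℕ) : ℕ :=
  Nat.pair (u (6 * n + i)).toNat (Nat.pair (u (6 * n + 2 + i)).toNat (uu u i n))

/-- the composed computation -/
def cv (j : ℕ) (u : ℕ → Bool) (i len p : ℕ) : Option ℕ :=
  ev j.unpair.2 (zip2 (pre (uu u i) len) (out j.unpair.1 (pre (zz u i) len))) p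

/-- level `k` has diagonalised -/
def acted (L : Lg) (k : ℕ) : Bool := L.any fun r => eqB r.1 k && eqB r.2.length 2

/-- a new computation is seen -/
def wN (L : Lg) (k : ℕ) : Bool := (List.range (k + 1)).any fun j =>
  (cv j (mem L) (k % 2) L.length (Nat.pair k (bb L k))).isSome &&
    !(cv j (mem L) (k % 2) (bb L (k + 1)) (Nat.pair k (bb L k))).isSome

/-- the follower is realised -/
def wP (L : Lg) (k : ℕ) : Bool := !acted L k &&
  eqB (ev (k / 2) (pre (fun _ => 0) L.length) (Nat.pair k (bb L (k + 1)))) (some 0)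

/-- the least level whose restraint is violated -/
def lw (L : Lg) (x : ℕ) : ℕ :=
  ((List.range L.length).find? fun k => leB (x + 1) (bb L (k + 1))).getD L.length

/-- one stage -/
def nxt (en : ℕ → Option ℕ) (L : Lg) : ℕ × List ℕ :=
  (en L.length).elim
    (((List.range L.length).find? fun k => wP L k || wN L k).elim (L.length, []) fun k =>
      (k, cond (wP L k) [6 * Nat.pair k (bb L k) + 2 + k % 2,
        6 * Nat.pair k (bb L (k + 1)) + 4 + k % 2] []))
    fun x => (lw L x + 1, [6 * x + (lw L x + 1) % 2])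

/-- the log at a stage -/
def st (en : ℕ → Option ℕ) : ℕ → Lg := natIter [] fun _ L => L ++ [nxt en L]

section comp

variable {α : Type} [Primcodable α] {O : Set (ℕ →. ℕ)}

@[fun_prop] lemma c_mem {L : α → Lg} {u : α → ℕ} (hL : ComputableIn O L) (hu : ComputableIn O u) :
    ComputableIn O fun a => mem (L a) (u a) := by unfold mem; fun_prop

@[fun_prop] lemma c_bb {L : α → Lg} {k : α → ℕ} (hL : ComputableIn O L) (hk : ComputableIn O k) :
    ComputableIn O fun a => bb (L a) (k a) := by unfold bb; fun_prop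

@[fun_prop] lemma c_uu {L : α → Lg} {i n : α → ℕ} (hL : ComputableIn O L)
    (hi : ComputableIn O i) (hn : ComputableIn O n) :
    ComputableIn O fun a => uu (mem (L a)) (i a) (n a) := by unfold uu; fun_prop

@[fun_prop] lemma c_zz {L : α → Lg} {i n : α → ℕ} (hL : ComputableIn O L)
    (hi : ComputableIn O i) (hn : ComputableIn O n) :
    ComputableIn O fun a => zz (mem (L a)) (i a) (n a) := by unfold zz; fun_prop

@[fun_prop] lemma c_cv {L : α → Lg} {j i l p : α → ℕ} (hj : ComputableIn O j)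
    (hL : ComputableIn O L) (hi : ComputableIn O i) (hl : ComputableIn O l)
    (hp : ComputableIn O p) :
    ComputableIn O fun a => cv (j a) (mem (L a)) (i a) (l a) (p a) := by unfold cv; fun_prop

@[fun_prop] lemma c_wN {L : α → Lg} {k : α → ℕ} (hL : ComputableIn O L) (hk : ComputableIn O k) :
    ComputableIn O fun a => wN (L a) (k a) := by unfold wN; fun_prop

@[fun_prop] lemma c_wP {L : α → Lg} {k : α → ℕ} (hL : ComputableIn O L) (hk : ComputableIn O k) :
    ComputableIn O fun a => wP (L a) (k a) := by unfold wP acted; fun_prop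

@[fun_prop] lemma c_lw {L : α → Lg} {k : α → ℕ} (hL : ComputableIn O L) (hk : ComputableIn O k) :
    ComputableIn O fun a => lw (L a) (k a) := by unfold lw; fun_prop

lemma c_st {en : ℕ → Option ℕ} (h : Computable en) : ComputableIn O (st en) := by
  have h1 : ComputableIn O en := ofC h
  have h2 : ComputableIn O (nxt en) := by unfold nxt; fun_prop
  unfold st
  fun_prop

end comp

lemma cv_congr {f g : ℕ → Bool} {i len : ℕ} (hi : i < 2)
    (h : ∀ u, u % 2 = i → u / 6 < len → f u = g u) :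
    pre (uu f i) len = pre (uu g i) len ∧ pre (zz f i) len = pre (zz g i) len := by
  have h1 : ∀ n < len, uu f i n = uu g i n := fun n hn => by
    rw [uu, uu, h _ (by omega) (by omega)]
  exact ⟨pre_congr h1, pre_congr fun n hn => by
    rw [zz, zz, h1 n hn, h (6 * n + i) (by omega) (by omega), h _ (by omega) (by omega)]⟩

lemma cv_mono {j i a a' p : ℕ} {f : ℕ → Bool} (h : a ≤ a') (h1 : (cv j f i a p).isSome = true) :
    (cv j f i a' p).isSome = true := by
  obtain ⟨v, hv⟩ := Option.isSome_iff_exists.1 h1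
  exact Option.isSome_iff_exists.2 ⟨v, ev_mono
    (zip2_mono (pre_isPrefix _ h) (out_mono _ (pre_isPrefix _ h))) hv⟩

variable {en : ℕ → Option ℕ}

/-- the level of the event at a stage -/
def lev (en : ℕ → Option ℕ) (s : ℕ) : ℕ := (nxt en (st en s)).1

/-- the codes enumerated at a stage -/
def nw (en : ℕ → Option ℕ) (s : ℕ) : List ℕ := (nxt en (st en s)).2

lemma st_eq (s : ℕ) : st en s = pre (fun t => nxt en (st en t)) s := by
  induction s with
  | zero => rfl
  | succ s ih => rw [pre_succ, ← ih]; rfl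

lemma len_st (s : ℕ) : (st en s).length = s := by rw [st_eq, length_pre]

lemma any_st {p : ℕ × List ℕ → Bool} {s : ℕ} :
    (st en s).any p = true ↔ ∃ r < s, p (nxt en (st en r)) = true := by
  rw [st_eq]
  simp [pre]

lemma mem_iff {s u : ℕ} : mem (st en s) u = true ↔ ∃ r < s, u ∈ nw en r := by
  simp only [mem, any_st, nw, memB_iff]

lemma acted_iff {s k : ℕ} :
    acted (st en s) k = true ↔ ∃ r < s, lev en r = k ∧ (nw en r).length = 2 := by
  simp only [acted, any_st, nw, lev, Bool.and_eq_true, eqB_iff]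

lemma bb_succ (s k : ℕ) :
    bb (st en (s + 1)) k = if lev en s < k then s + 1 else bb (st en s) k := by
  have h : ∀ n ≤ s, natIter 0 (fun t acc =>
      cond (leB (((st en (s + 1)).getD t (0, [])).1 + 1) k) (t + 1) acc) n = natIter 0 (fun t acc =>
      cond (leB (((st en s).getD t (0, [])).1 + 1) k) (t + 1) acc) n := fun n hn => by
    induction n with
    | zero => rfl
    | succ n ih =>
      simp only [natIter]
      rw [ih (by omega), st_eq, st_eq s, getD_pre _ (by omega), getD_pre _ (by omega)]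
  simp only [bb, len_st, natIter, h s le_rfl]
  rw [st_eq (s + 1), getD_pre _ (Nat.lt_succ_self s)]
  change cond (leB (lev en s + 1) k) _ _ = _
  by_cases c : lev en s < k
  · rw [if_pos c, leB_iff.2 (show lev en s + 1 ≤ k from c), cond_true]
  · rw [if_neg c, leB_false_iff.2 (show k < lev en s + 1 by omega), cond_false]

lemma bb_le (s k : ℕ) : bb (st en s) k ≤ s := by
  induction s with
  | zero => exact le_rfl
  | succ s ih => rw [bb_succ]; split_ifs <;> omega

lemma bb_step {s t : ℕ} (h : s ≤ t) (k : ℕ) :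
    bb (st en t) k = bb (st en s) k ∨ s < bb (st en t) k := by
  induction h with
  | refl => exact Or.inl rfl
  | step h ih =>
    rw [bb_succ]
    split_ifs
    · exact Or.inr (Nat.lt_succ_of_le h)
    · exact ih

lemma bb_mono {s t : ℕ} (h : s ≤ t) (k : ℕ) : bb (st en s) k ≤ bb (st en t) k := by
  have := bb_step (en := en) h k
  have := bb_le (en := en) s k
  omega

lemma bb_lev (s : ℕ) {k l : ℕ} (h : k ≤ l) : bb (st en s) k ≤ bb (st en s) l := by
  induction s with
  | zero => exact le_rfl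
  | succ s ih =>
    have := bb_le (en := en) s k
    rw [bb_succ, bb_succ]
    split_ifs <;> omega

lemma bb_const {s t k : ℕ} (h : s ≤ t) (h1 : ∀ r, s ≤ r → k ≤ lev en r) :
    bb (st en t) k = bb (st en s) k := by
  induction h with
  | refl => rfl
  | step h ih => rw [bb_succ, if_neg (not_lt.2 (h1 _ h)), ih]

/-- a diagonalising event -/
def PE (en : ℕ → Option ℕ) (s : ℕ) : Prop := wP (st en s) (lev en s) = true ∧
  nw en s = [6 * Nat.pair (lev en s) (bb (st en s) (lev en s)) + 2 + lev en s % 2,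
    6 * Nat.pair (lev en s) (bb (st en s) (lev en s + 1)) + 4 + lev en s % 2]

lemma cases_ev (en : ℕ → Option ℕ) (s : ℕ) :
    (∃ x, en s = some x ∧ lev en s = lw (st en s) x + 1 ∧ nw en s = [6 * x + lev en s % 2]) ∨
    (en s = none ∧ (∀ k < s, wP (st en s) k = true ∨ wN (st en s) k = true → lev en s ≤ k) ∧
      (PE en s ∨ nw en s = [] ∧ (lev en s = s ∨ wN (st en s) (lev en s) = true))) := by
  rcases e : en s with _ | x
  · refine Or.inr ⟨rfl, ?_⟩
    by_cases c : ∃ k < s, (wP (st en s) k || wN (st en s) k) = true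
    · obtain ⟨k, -, k2, k3, k4⟩ := find_spec c
      have e1 : lev en s = k := by simp [lev, nxt, len_st, e, k2]
      refine ⟨fun l _ hl => e1.trans_le (not_lt.1 fun h => by
        simpa [k4 l h] using Bool.or_eq_true_iff.2 hl), ?_⟩
      cases c' : wP (st en s) k
      · exact Or.inr ⟨by simp [nw, nxt, len_st, e, k2, c'], Or.inr (by simpa [e1, c'] using k3)⟩
      · exact Or.inl ⟨e1 ▸ c', by rw [e1]; simp [nw, nxt, len_st, e, k2, c']⟩
    · have k2 : (List.range s).find? (fun k => wP (st en s) k || wN (st en s) k) = none :=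
        List.find?_eq_none.2 fun k hk h => c ⟨k, List.mem_range.1 hk, h⟩
      exact ⟨fun k hk h => (c ⟨k, hk, Bool.or_eq_true_iff.2 h⟩).elim,
        Or.inr ⟨by simp [nw, nxt, len_st, e, k2], Or.inl (by simp [lev, nxt, len_st, e, k2])⟩⟩
  · exact Or.inl ⟨x, rfl, by simp [lev, nxt, len_st, e], by simp [nw, lev, nxt, len_st, e]⟩

lemma lw_spec (s x : ℕ) : (∀ k < lw (st en s) x, bb (st en s) (k + 1) ≤ x) ∧
    (lw (st en s) x = s ∨ x < bb (st en s) (lw (st en s) x + 1)) := by
  by_cases c : ∃ k < s, leB (x + 1) (bb (st en s) (k + 1)) = true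
  · obtain ⟨k, -, k2, k3, k4⟩ := find_spec c
    rw [lw, len_st, k2, Option.getD_some]
    exact ⟨fun l hl => by simpa [Nat.lt_succ_iff] using k4 l hl, Or.inr (leB_iff.1 k3)⟩
  · have k2 : (List.range s).find? (fun k => leB (x + 1) (bb (st en s) (k + 1))) = none :=
      List.find?_eq_none.2 fun k hk h => c ⟨k, List.mem_range.1 hk, h⟩
    rw [lw, len_st, k2, Option.getD_none]
    exact ⟨fun l hl => not_lt.1 fun h => c ⟨l, hl, leB_iff.2 h⟩, Or.inl rfl⟩

lemma pe_of_mem {s u : ℕ} (h : u ∈ nw en s) (h1 : 2 ≤ u % 6) : PE en s := by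
  rcases cases_ev en s with ⟨x, -, -, e⟩ | ⟨-, -, e | ⟨e, -⟩⟩
  · rw [e, List.mem_singleton] at h
    omega
  · exact e
  · simp [e] at h

lemma en_of_mem {s u : ℕ} (h : u ∈ nw en s) (h1 : u % 6 < 2) : en s = some (u / 6) := by
  rcases cases_ev en s with ⟨x, e1, -, e⟩ | ⟨-, -, e | ⟨e, -⟩⟩
  · rw [e, List.mem_singleton] at h
    rw [e1]
    congr 1
    omega
  · simp only [e.2, List.mem_cons, List.not_mem_nil, or_false] at h
    omega
  · simp [e] at h

lemma pe_of_len {s : ℕ} (h : (nw en s).length = 2) : PE en s := by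
  rcases cases_ev en s with ⟨x, -, -, e⟩ | ⟨-, -, e | ⟨e, -⟩⟩
  · simp [e] at h
  · exact e
  · simp [e] at h

lemma PE.once {r s : ℕ} (h : PE en r) (h' : PE en s) (e : lev en r = lev en s) : ¬ r < s := by
  intro c
  have h1 := h'.1
  simp [wP, acted_iff.2 ⟨r, c, e, by rw [h.2]; rfl⟩] at h1

lemma pres {s k u : ℕ} (hk : k < lev en s) (hu : u ∈ nw en s) (h2 : u % 2 = k % 2) :
    bb (st en s) (k + 1) ≤ u / 6 := by
  rcases cases_ev en s with ⟨x, -, e1, e⟩ | ⟨-, -, e | ⟨e, -⟩⟩
  · rw [e, List.mem_singleton] at hu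
    have := (lw_spec (en := en) s x).1 k (by omega)
    omega
  · simp only [e.2, List.mem_cons, List.not_mem_nil, or_false] at hu
    have a1 := bb_lev (en := en) s (show k + 1 ≤ lev en s from hk)
    have a2 := bb_lev (en := en) s (Nat.le_add_right (lev en s) 1)
    have a3 := Nat.right_le_pair (lev en s) (bb (st en s) (lev en s))
    have a4 := Nat.right_le_pair (lev en s) (bb (st en s) (lev en s + 1))
    omega
  · simp [e] at hu

lemma pres' {s t k u : ℕ} (h : s ≤ t) (h1 : ∀ r, s ≤ r → k < lev en r ∨ nw en r = [])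
    (h2 : u % 2 = k % 2) (h3 : u / 6 < bb (st en s) (k + 1)) :
    mem (st en t) u = mem (st en s) u := by
  rw [Bool.eq_iff_iff, mem_iff, mem_iff]
  refine ⟨fun ⟨r, _, r2⟩ => ⟨r, not_le.1 fun c => ?_, r2⟩, fun ⟨r, r1, r2⟩ => ⟨r, by omega, r2⟩⟩
  rcases h1 r c with e | e
  · have := pres e r2 h2
    have := bb_mono (en := en) c (k + 1)
    omega
  · simp [e] at r2

lemma bdd {P : ℕ → Prop} (h : {s | P s}.Finite) : ∃ s0, ∀ s, s0 ≤ s → ¬ P s :=
  h.bddAbove.elim fun b hb => ⟨b + 1, fun s hs c => by have := hb c; omega⟩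

lemma fin_lev {W : Set ℕ} (E : Enum W en) (k : ℕ) : ∃ s0, ∀ s, s0 ≤ s → k ≤ lev en s := by
  induction k with
  | zero => exact ⟨0, fun _ _ => Nat.zero_le _⟩
  | succ k ih =>
    obtain ⟨s0, h0⟩ := ih
    obtain ⟨s1, h1⟩ := bdd (P := fun s => ∃ x < bb (st en s0) k, en s = some x) (by
      rw [Set.ofPred_exists]
      refine Set.Finite.iUnion (t := Set.Iio (bb (st en s0) k)) (Set.finite_Iio _)
        (fun x _ => Set.Subsingleton.finite fun s hs t ht => E.inj s t x hs.2 ht.2) fun x hx => ?_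
      exact Set.eq_empty_of_forall_notMem fun s hs => hx hs.1)
    obtain ⟨s2, h2⟩ := bdd (P := fun s => PE en s ∧ lev en s = k)
      (Set.Subsingleton.finite fun s hs t ht => le_antisymm
        (not_lt.1 (ht.1.once hs.1 (ht.2.trans hs.2.symm)))
        (not_lt.1 (hs.1.once ht.1 (hs.2.trans ht.2.symm))))
    obtain ⟨s3, h3⟩ : ∃ s3, s0 ≤ s3 ∧ ∀ s, s3 ≤ s →
        k < lev en s ∨ nw en s = [] ∧ lev en s = k ∧ wN (st en s) k = true := by
      refine ⟨s0 + s1 + s2 + k + 1, by omega, fun s hs => ?_⟩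
      refine (h0 s (by omega)).lt_or_eq.imp id fun c => ?_
      rcases cases_ev en s with ⟨x, e0, e1, -⟩ | ⟨-, -, e | ⟨e, e'⟩⟩
      · have := (lw_spec (en := en) s x).2
        rw [← e1, ← c, bb_const (show s0 ≤ s by omega) h0] at this
        exact (h1 s (by omega) ⟨x, by omega, e0⟩).elim
      · exact (h2 s (by omega) ⟨e, c.symm⟩).elim
      · exact ⟨e, c.symm, c ▸ e'.resolve_left (by omega)⟩
    have h4 : ∀ j r s, s3 ≤ r → r < s → lev en r = k →
        (cv j (mem (st en r)) (k % 2) r (Nat.pair k (bb (st en s0) k))).isSome = true →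
        (cv j (mem (st en s)) (k % 2) (bb (st en s) (k + 1))
          (Nat.pair k (bb (st en s0) k))).isSome = true := fun j r s a1 a2 a3 a4 => by
      have b1 : bb (st en (r + 1)) (k + 1) = r + 1 := by rw [bb_succ, if_pos (by omega)]
      have b2 := bb_mono (en := en) (show r + 1 ≤ s from a2) (k + 1)
      have b3 := cv_congr (f := mem (st en s)) (g := mem (st en r)) (i := k % 2) (len := r)
        (by omega) fun u u1 u2 => by
          rw [pres' (k := k) (show r + 1 ≤ s from a2)
            (fun q hq => (h3.2 q (by omega)).imp id fun c => c.1) u1 (by omega),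
            Bool.eq_iff_iff, mem_iff, mem_iff]
          refine ⟨fun ⟨q, q1, q2⟩ => ⟨q, lt_of_le_of_ne (by omega) ?_, q2⟩,
            fun ⟨q, q1, q2⟩ => ⟨q, by omega, q2⟩⟩
          rintro rfl
          simp [((h3.2 q a1).resolve_left (by omega)).1] at q2
      refine cv_mono (a := r) (by omega) ?_
      rwa [cv, b3.1, b3.2]
    obtain ⟨s4, h5⟩ := bdd (P := fun s => ∃ j < k + 1, s3 ≤ s ∧ lev en s = k ∧
        (cv j (mem (st en s)) (k % 2) s (Nat.pair k (bb (st en s0) k))).isSome = true ∧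
        ¬ (cv j (mem (st en s)) (k % 2) (bb (st en s) (k + 1))
          (Nat.pair k (bb (st en s0) k))).isSome = true) (by
      rw [Set.ofPred_exists]
      refine Set.Finite.iUnion (t := Set.Iio (k + 1)) (Set.finite_Iio _)
        (fun j _ => Set.Subsingleton.finite fun s hs t ht => le_antisymm
          (not_lt.1 fun c => hs.2.2.2.2 (h4 j t s ht.2.1 c ht.2.2.1 ht.2.2.2.1))
          (not_lt.1 fun c => ht.2.2.2.2 (h4 j s t hs.2.1 c hs.2.2.1 hs.2.2.2.1))) fun x hx => ?_
      exact Set.eq_empty_of_forall_notMem fun s hs => hx hs.1)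
    refine ⟨s3 + s4, fun s hs => (h3.2 s (by omega)).resolve_right fun c => ?_⟩
    have c1 := c.2.2
    simp only [wN, any_range, Bool.and_eq_true, Bool.not_eq_true', ← Bool.not_eq_true, len_st,
      bb_const (show s0 ≤ s by omega) h0] at c1
    obtain ⟨j, j1, j2⟩ := c1
    exact h5 s (by omega) ⟨j, j1, by omega, c.2.1, j2⟩

open Classical in
/-- the set of enumerated codes -/
noncomputable def MM (en : ℕ → Option ℕ) (u : ℕ) : Bool := decide (∃ s, mem (st en s) u = true)

lemma MM_iff {u : ℕ} : MM en u = true ↔ ∃ r, u ∈ nw en r := by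
  simp only [MM, decide_eq_true_eq, mem_iff]
  exact ⟨fun ⟨_, r, _, h⟩ => ⟨r, h⟩, fun ⟨r, h⟩ => ⟨r + 1, r, by omega, h⟩⟩

lemma lim_mem (en : ℕ → Option ℕ) (N : ℕ) :
    ∃ s0, ∀ s, s0 ≤ s → ∀ u ≤ N, mem (st en s) u = MM en u :=
  bound_all N fun u => by
    cases c : MM en u
    · exact ⟨0, fun s _ => Bool.eq_false_iff.2 fun h => by
        obtain ⟨r, -, h⟩ := mem_iff.1 h
        simp [MM_iff.2 ⟨r, h⟩] at c⟩
    · exact (MM_iff.1 c).elim fun r h => ⟨r + 1, fun s hs => mem_iff.2 ⟨r, hs, h⟩⟩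

lemma lim_pre (en : ℕ → Option ℕ) {i : ℕ} (hi : i < 2) (N : ℕ) : ∃ s0, ∀ s, s0 ≤ s → ∀ a ≤ N,
    pre (uu (mem (st en s)) i) a = pre (uu (MM en) i) a ∧
      pre (zz (mem (st en s)) i) a = pre (zz (MM en) i) a :=
  (lim_mem en (6 * N + 6)).imp fun _ h s hs a ha =>
    cv_congr hi fun u _ u2 => h s hs u (by omega)

lemma not_comp {W : Set ℕ} (E : Enum W en) {i : ℕ} (hi : i < 2) : ¬ Computable (uu (MM en) i) := by
  intro h
  obtain ⟨e, he⟩ := red_iff.1 (red_of_computable h fun _ => 0)
  have h1 : ∀ s, PE en s → lev en s ≠ 2 * e + i := fun s hs c => by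
    have a1 := hs.1
    have a2 := hs.2
    simp only [wP, Bool.and_eq_true, eqB_iff, len_st, c, show (2 * e + i) / 2 = e by omega] at a1
    have a3 := he.eq a1.2
    rw [c, show (2 * e + i) % 2 = i by omega] at a2
    simp [uu, MM_iff.2 ⟨s, by rw [a2]; exact List.mem_cons_of_mem _ (List.mem_singleton_self _)⟩]
      at a3
  obtain ⟨s0, h0⟩ := fin_lev E (2 * e + i + 1)
  obtain ⟨n, hn⟩ := he.ev_ge (Nat.pair (2 * e + i) (bb (st en s0) (2 * e + i + 1)))
  obtain ⟨s, s1, s2⟩ := E.gap (s0 + n + 2 * e + i + 1)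
  have h2 : uu (MM en) i (Nat.pair (2 * e + i) (bb (st en s0) (2 * e + i + 1))) = 0 := by
    rw [uu, Bool.toNat_eq_zero, Bool.eq_false_iff]
    intro c
    obtain ⟨r, hr⟩ := MM_iff.1 c
    have a1 := pe_of_mem hr (by omega)
    simp only [a1.2, List.mem_cons, List.not_mem_nil, or_false] at hr
    exact h1 r a1 (Nat.pair_eq_pair.1 (show Nat.pair (lev en r) (bb (st en r) (lev en r + 1)) =
      Nat.pair (2 * e + i) (bb (st en s0) (2 * e + i + 1)) by omega)).1
  have h3 : wP (st en s) (2 * e + i) = true := by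
    simp only [wP, Bool.and_eq_true, eqB_iff, len_st, show (2 * e + i) / 2 = e by omega,
      Bool.not_eq_true', Bool.eq_false_iff, bb_const (show s0 ≤ s by omega) h0]
    exact ⟨fun c => (acted_iff.1 c).elim fun r hr => h1 r (pe_of_len hr.2.2) hr.2.1,
      h2 ▸ hn s (by omega)⟩
  rcases cases_ev en s with ⟨x, e0, -⟩ | ⟨-, e1, -⟩
  · simp [s2] at e0
  · have := e1 _ (by omega) (Or.inl h3)
    have := h0 s (by omega)
    omega

lemma no_partner {W : Set ℕ} (E : Enum W en) {i : ℕ} (hi : i < 2) {V : ℕ → ℕ}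
    (h1 : Red V (zz (MM en) i)) (h2 : Red (zz (MM en) i) (jn (uu (MM en) i) V)) :
    Red (uu (MM en) i) V := by
  classical
  obtain ⟨Φ, hΦ⟩ := red_iff.1 h1
  obtain ⟨Ψ, hΨ⟩ := red_iff.1 h2
  obtain ⟨s0, h0⟩ := fin_lev E (Nat.pair Φ Ψ)
  have hV : ComputableIn (orc V) V := Red.refl V
  have hs : ComputableIn (orc V) (st en) := c_st E.comp
  refine c_search (P := fun n s => leB (s0 + n + 1) s && (List.range (n + 1)).all fun k =>
    !(leB (Nat.pair Φ Ψ) k && eqB (k % 2) i) ||
      (eqB (cv (Nat.pair Φ Ψ) (mem (st en s)) i (bb (st en s) (k + 1)) (Nat.pair k (bb (st en s) k)))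
        (some (zz (mem (st en s)) i (Nat.pair k (bb (st en s) k)))) &&
      eqB (out Φ (pre (zz (mem (st en s)) i) (bb (st en s) (k + 1))))
        (pre V (out Φ (pre (zz (mem (st en s)) i) (bb (st en s) (k + 1)))).length)))
    (v := fun n s => uu (mem (st en s)) i n) (by fun_prop) (by fun_prop) (fun n => ?_)
    fun n s H => ?_
  · obtain ⟨s1, a1⟩ := fin_lev E (n + 1)
    obtain ⟨s2, a2⟩ := bound_all (P := fun k s => k ≤ n → Nat.pair Φ Ψ ≤ k → k % 2 = i →
      cv (Nat.pair Φ Ψ) (mem (st en s)) i (bb (st en s1) (k + 1)) (Nat.pair k (bb (st en s1) k)) =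
        some (zz (mem (st en s)) i (Nat.pair k (bb (st en s1) k))) ∧
      out Φ (pre (zz (mem (st en s)) i) (bb (st en s1) (k + 1))) =
        pre V (out Φ (pre (zz (mem (st en s)) i) (bb (st en s1) (k + 1)))).length) n fun k => by
      generalize ha : bb (st en s1) (k + 1) = a
      generalize hp : Nat.pair k (bb (st en s1) k) = p
      obtain ⟨l0, b0⟩ := hΨ.ev_ge p
      obtain ⟨l1, b1⟩ := hΦ.out_long l0
      obtain ⟨s2, b2⟩ := lim_pre en hi (a + p + 1 + l0 + l1)
      have b3 : ∀ l, cv (Nat.pair Φ Ψ) (MM en) i l p = ev Ψ (pre (jn (uu (MM en) i) V)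
          (min l (out Φ (pre (zz (MM en) i) l)).length)) p := fun l => by
        rw [cv, Nat.unpair_pair, ← zip2_pre, ← hΦ.out_eq]
      have b4 : ∀ s, s2 ≤ s → ∀ l ≤ a + p + 1 + l0 + l1, cv (Nat.pair Φ Ψ) (mem (st en s)) i l p =
          cv (Nat.pair Φ Ψ) (MM en) i l p := fun s hs l hl => by
        rw [cv, cv, (b2 s hs l hl).1, (b2 s hs l hl).2]
      refine ⟨s2, fun s hs k1 k2 k3 => ⟨?_, by rw [(b2 s hs a (by omega)).2]; exact hΦ.out_eq a⟩⟩
      have b5 : zz (mem (st en s)) i p = zz (MM en) i p := by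
        rw [← getD_pre (zz (mem (st en s)) i) (Nat.lt_succ_self p) 0,
          (b2 s hs (p + 1) (by omega)).2, getD_pre _ (Nat.lt_succ_self p)]
      rw [b4 s hs a (by omega), b5]
      rcases c : cv (Nat.pair Φ Ψ) (MM en) i a p with _ | v
      · exfalso
        obtain ⟨t, t1, t2⟩ := E.gap (s1 + s2 + n + 1 + l0 + l1)
        have b6 : wN (st en t) k = true := by
          simp only [wN, any_range, Bool.and_eq_true, Bool.not_eq_true', len_st, k3,
            bb_const (show s1 ≤ t by omega) fun r hr => (show k ≤ n + 1 by omega).trans (a1 r hr),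
            bb_const (show s1 ≤ t by omega) fun r hr =>
              (show k + 1 ≤ n + 1 by omega).trans (a1 r hr), ha, hp]
          refine ⟨Nat.pair Φ Ψ, by omega, cv_mono (a := l0 + l1) (by omega) ?_, ?_⟩
          · have := b1 (l0 + l1) (by omega)
            rw [b4 t (by omega) _ (by omega), b3, b0 _ (by omega)]
            rfl
          · rw [b4 t (by omega) _ (by omega), c]
            rfl
        rcases cases_ev en t with ⟨x, e0, -⟩ | ⟨-, e1, -⟩
        · simp [t2] at e0
        · have := e1 k (by omega) (Or.inr b6)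
          have := a1 t (by omega)
          omega
      · rw [b3] at c
        rw [hΨ.eq c]
    refine ⟨s0 + n + 1 + s1 + s2, ?_⟩
    simp only [Bool.and_eq_true, leB_iff, List.all_eq_true, List.mem_range, Bool.or_eq_true,
      Bool.not_eq_true', ← Bool.not_eq_true, eqB_iff, ← imp_iff_not_or]
    refine ⟨by omega, fun k hk c => ?_⟩
    rw [bb_const (show s1 ≤ s0 + n + 1 + s1 + s2 by omega) fun r hr =>
        (show k ≤ n + 1 by omega).trans (a1 r hr),
      bb_const (show s1 ≤ s0 + n + 1 + s1 + s2 by omega) fun r hr =>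
        (show k + 1 ≤ n + 1 by omega).trans (a1 r hr)]
    exact a2 _ (by omega) k (by omega) (by omega) c.1 c.2
  · simp only [Bool.and_eq_true, leB_iff, List.all_eq_true, List.mem_range, Bool.or_eq_true,
      Bool.not_eq_true', ← Bool.not_eq_true, eqB_iff, ← imp_iff_not_or] at H
    obtain ⟨H0, H⟩ := H
    by_contra ne
    have ex : ∃ m, uu (mem (st en s)) i m ≠ uu (MM en) i m := ⟨n, ne⟩
    have m1 := Nat.find_min' ex ne
    have m2 := Nat.find_spec ex
    have m3 : ∀ l < Nat.find ex, uu (mem (st en s)) i l = uu (MM en) i l := fun l hl =>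
      not_not.1 (Nat.find_min ex hl)
    generalize Nat.find ex = m at m1 m2 m3
    obtain ⟨t, t1, t2⟩ : ∃ t, s ≤ t ∧ 6 * m + 4 + i ∈ nw en t := by
      by_contra hc
      push Not at hc
      refine m2 (congrArg Bool.toNat ?_)
      rw [Bool.eq_iff_iff, mem_iff, MM_iff]
      exact ⟨fun ⟨r, _, h⟩ => ⟨r, h⟩, fun ⟨r, h⟩ => ⟨r, not_le.1 fun c => hc r c h, h⟩⟩
    have p1 := pe_of_mem t2 (by omega)
    simp only [p1.2, List.mem_cons, List.not_mem_nil, or_false] at t2
    have k1 : lev en t % 2 = i := by omega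
    have k2 : m = Nat.pair (lev en t) (bb (st en t) (lev en t + 1)) := by omega
    have k3 := Nat.left_le_pair (lev en t) (bb (st en t) (lev en t + 1))
    have k4 := Nat.right_le_pair (lev en t) (bb (st en t) (lev en t + 1))
    have k5 := bb_lev (en := en) t (Nat.le_add_right (lev en t) 1)
    have k6 := (bb_step (en := en) t1 (lev en t + 1)).resolve_right (by omega)
    have k7 := (bb_step (en := en) t1 (lev en t)).resolve_right (by omega)
    obtain ⟨c1, c2⟩ := H (lev en t) (by omega) ⟨h0 t (by omega), k1⟩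
    rw [cv, Nat.unpair_pair, c2,
      pre_congr (n := bb (st en s) (lev en t + 1)) fun l hl => m3 l (by omega), zip2_pre] at c1
    have c3 := (Nat.pair_eq_pair.1 (Nat.pair_eq_pair.1 (hΨ.eq c1)).2).1
    rw [← k7, MM_iff.2 ⟨t, by rw [p1.2, k1]; exact List.mem_cons_self⟩, Bool.toNat_true,
      Bool.toNat_eq_one] at c3
    obtain ⟨r, r1, r2⟩ := mem_iff.1 c3
    have p2 := pe_of_mem r2 (by omega)
    simp only [p2.2, List.mem_cons, List.not_mem_nil, or_false] at r2
    exact p2.once p1 (Nat.pair_eq_pair.1 (show Nat.pair (lev en r) (bb (st en r) (lev en r)) =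
      Nat.pair (lev en t) (bb (st en t) (lev en t)) by omega)).1 (by omega)

lemma chi_eq (en : ℕ → Option ℕ) (i x : ℕ) :
    chi {x | MM en (6 * x + i) = true} x = (MM en (6 * x + i)).toNat := by
  cases c : MM en (6 * x + i)
  · exact chi_notMem (by simp [c])
  · exact chi_mem c

lemma half {W : Set ℕ} (E : Enum W en) {i : ℕ} (hi : i < 2) :
    IsRE {x | MM en (6 * x + i) = true} ∧ Red (chi {x | MM en (6 * x + i) = true}) (chi W) ∧
      ∃ Z, Red Z KK ∧ Red (chi {x | MM en (6 * x + i) = true}) Z ∧ NoJoin Z := by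
  have h0 : ComputableIn ∅ (st en) := c_st E.comp
  refine ⟨isRE_iff.2 ⟨fun x s => mem (st en s) (6 * x + i), toC (by fun_prop), fun x => by
    simp [MM]⟩, ?_, zz (MM en) i, ?_, ?_, uu (MM en) i, ?_, not_comp E hi,
    fun V => no_partner E hi⟩
  · have h1 : ComputableIn (orc (chi W)) (st en) := c_st E.comp
    have h2 : ComputableIn (orc (chi W)) en := ofC E.comp
    have h3 : ComputableIn (orc (chi W)) (chi W) := Red.refl _
    refine c_search (P := fun x s => eqB (chi W x) 0 || eqB (en s) (some x))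
      (v := fun x s => cond (eqB (chi W x) 0) 0 (mem (st en (s + 1)) (6 * x + i)).toNat)
      (by fun_prop) (by fun_prop) (fun x => ?_) fun x s H => ?_
    · by_cases c : x ∈ W
      · exact ((E.mem x).1 c).imp fun s hs => by simp [hs]
      · exact ⟨0, by simp [chi_notMem c]⟩
    · have a1 : ∀ r, 6 * x + i ∈ nw en r → en r = some x := fun r hr => by
        rw [en_of_mem hr (by omega)]
        congr 1
        omega
      rw [chi_eq]
      by_cases c : x ∈ W
      · simp only [chi_mem c, Bool.or_eq_true, eqB_iff, one_ne_zero, false_or] at H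
        rw [chi_mem c, eqB_false_iff.2 one_ne_zero, cond_false]
        congr 1
        rw [Bool.eq_iff_iff, mem_iff, MM_iff]
        exact ⟨fun ⟨r, _, h⟩ => ⟨r, h⟩, fun ⟨r, h⟩ =>
          ⟨r, by rw [E.inj r s x (a1 r h) H]; omega, h⟩⟩
      · rw [chi_notMem c, eqB_iff.2 rfl, cond_true, eq_comm, Bool.toNat_eq_zero, Bool.eq_false_iff]
        exact fun h => (MM_iff.1 h).elim fun r hr => c ((E.mem x).2 ⟨r, a1 r hr⟩)
  · have h1 : ComputableIn (orc KK) (MM en) :=
      sigma1_KK (R := fun u s => mem (st en s) u) (toC (by fun_prop))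
    unfold Red zz uu
    fun_prop
  · exact cin_of_eq (c_fst (c_unpair (Red.refl _))) fun x => by
      simp only [chi_eq, zz, Nat.unpair_pair]
  · exact cin_of_eq (c_snd (c_unpair (c_snd (c_unpair (Red.refl _))))) fun x => by
      simp only [zz, Nat.unpair_pair]

end Pool.Agent.MP_68d28f_lc.CE.H

namespace Pool.Agent.MP_68d28f_lc.CE

open Pool.Agent.MP_b427ce_lc H

theorem t2 : T2 := by
  intro W hW
  obtain ⟨en, E⟩ := hW.exists_enum
  obtain ⟨a1, a2, a3⟩ := half E (show 0 < 2 by omega)
  obtain ⟨b1, b2, b3⟩ := half E (show 1 < 2 by omega)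
  refine ⟨_, _, a1, b1, a2, b2, cin_of_eq (c_max (red_jn_left _ _) (red_jn_right _ _)) fun x => ?_,
    a3, b3⟩
  rw [chi_eq, chi_eq]
  by_cases c : x ∈ W
  · obtain ⟨s, hs⟩ := (E.mem x).1 c
    rw [chi_mem c]
    rcases cases_ev en s with ⟨y, e0, -, e1⟩ | ⟨e0, -⟩
    · obtain rfl : x = y := by simpa [hs] using e0
      have h : MM en (6 * x + lev en s % 2) = true := MM_iff.2 ⟨s, by simp [e1]⟩
      rcases Nat.mod_two_eq_zero_or_one (lev en s) with e | e <;> rw [e] at h <;> rw [h]
      · cases MM en (6 * x + 1) <;> rfl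
      · cases MM en (6 * x + 0) <;> rfl
    · simp [hs] at e0
  · have h : ∀ i < 2, MM en (6 * x + i) = false := fun i hi => Bool.eq_false_iff.2 fun h =>
      (MM_iff.1 h).elim fun r hr => c ((E.mem x).2 ⟨r, by
        rw [en_of_mem hr (by omega)]
        congr 1
        omega⟩)
    rw [chi_notMem c, h 0 (by omega), h 1 (by omega)]
    rfl

end Pool.Agent.MP_68d28f_lc.CE
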