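import Pool.Agent.MP_68d28f_lc.ce.LemA

/-!
A degree below the halting set that escapes domination has the join property.
-/

namespace Pool.Agent.MP_68d28f_lc.CE.J

open Pool.Agent.MP_b427ce_lc Encodable

/-- decoding of a candidate splitting -/
def dc (w : ℕ) : ℕ × List ℕ × List ℕ := (decode w : Option (ℕ × List ℕ × List ℕ)).getD (0, [], [])

/-- `w` codes an `e`-splitting above `ρ` -/
def spl (e : ℕ) (ρ : List ℕ) (w : ℕ) : Bool :=
  (ev e (ρ ++ (dc w).2.1) (dc w).1).isSome && (ev e (ρ ++ (dc w).2.2) (dc w).1).isSome &&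
    !eqB (ev e (ρ ++ (dc w).2.1) (dc w).1) (ev e (ρ ++ (dc w).2.2) (dc w).1)

/-- the graph of `U` -/
def gr (U : ℕ → ℕ) (n : ℕ) : Bool := eqB (U n.unpair.1) n.unpair.2

/-- a splitting is found below the bound -/
def fd (b e : ℕ) (σ : List ℕ) (n : ℕ) : Bool :=
  leB (n + 1) b && (List.range b).any (spl e (σ ++ [Nat.pair e n]))

/-- the side of the first splitting that disagrees with `U` -/
def side (U : ℕ → ℕ) (b e : ℕ) (ρ : List ℕ) : List ℕ :=
  cond (eqB (ev e (ρ ++ (dc (((List.range b).find? (spl e ρ)).getD 0)).2.1)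
      (dc (((List.range b).find? (spl e ρ)).getD 0)).1)
      (some (U (dc (((List.range b).find? (spl e ρ)).getD 0)).1)))
    (dc (((List.range b).find? (spl e ρ)).getD 0)).2.2
    (dc (((List.range b).find? (spl e ρ)).getD 0)).2.1

/-- states: string, number of blocks, finished indices -/
abbrev St := List ℕ × ℕ × List ℕ

/-- the index that is served -/
def ix (s : St) (b : ℕ) : ℕ :=
  ((List.range (s.2.1 + 1)).find? fun e => !memB e s.2.2 && (List.range b).any (spl e s.1)).getD
    s.2.1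

/-- the first disagreement -/
def nx (U : ℕ → ℕ) (b e : ℕ) (σ : List ℕ) : ℕ :=
  ((List.range (Nat.pair b (U b) + 1)).find? fun n => !eqB (gr U n) (fd b e σ n)).getD 0

/-- the body of a block -/
def body (U : ℕ → ℕ) (b : ℕ) (σ : List ℕ) (a : ℕ) : List ℕ :=
  cond (gr U a.unpair.2) (σ ++ [a]) (σ ++ [a] ++ side U b a.unpair.1 (σ ++ [a]))

/-- one block -/
def step (U Z : ℕ → ℕ) (s : St) (b : ℕ) : St :=
  (body U b s.1 (Nat.pair (ix s b) (nx U b (ix s b) s.1)) ++ [Z s.2.1], s.2.1 + 1,
    cond (gr U (nx U b (ix s b) s.1)) s.2.2 (ix s b :: s.2.2))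

section comp

variable {α : Type} [Primcodable α] {O : Set (ℕ →. ℕ)} {U : ℕ → ℕ}

@[fun_prop] lemma c_dc {f : α → ℕ} (hf : ComputableIn O f) : ComputableIn O fun a => dc (f a) :=
  c_optGetD (c_decode hf) (c_const _)

@[fun_prop] lemma c_spl {e w : α → ℕ} {r : α → List ℕ} (he : ComputableIn O e)
    (hr : ComputableIn O r) (hw : ComputableIn O w) :
    ComputableIn O fun a => spl (e a) (r a) (w a) := by unfold spl; fun_prop

@[fun_prop] lemma c_gr (hU : ComputableIn O U) {f : α → ℕ} (hf : ComputableIn O f) :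
    ComputableIn O fun a => gr U (f a) := by unfold gr; fun_prop

@[fun_prop] lemma c_fd {b e n : α → ℕ} {r : α → List ℕ} (hb : ComputableIn O b)
    (he : ComputableIn O e) (hr : ComputableIn O r) (hn : ComputableIn O n) :
    ComputableIn O fun a => fd (b a) (e a) (r a) (n a) := by unfold fd; fun_prop

@[fun_prop] lemma c_side (hU : ComputableIn O U) {b e : α → ℕ} {r : α → List ℕ}
    (hb : ComputableIn O b) (he : ComputableIn O e) (hr : ComputableIn O r) :
    ComputableIn O fun a => side U (b a) (e a) (r a) := by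
  have h : ComputableIn O fun a => dc (((List.range (b a)).find? (spl (e a) (r a))).getD 0) := by
    fun_prop
  unfold side
  generalize hg : (fun a => dc (((List.range (b a)).find? (spl (e a) (r a))).getD 0)) = g at h
  refine cin_of_eq (f := fun a => cond (eqB (ev (e a) (r a ++ (g a).2.1) (g a).1)
    (some (U (g a).1))) (g a).2.2 (g a).2.1) (by fun_prop) fun a => by rw [← hg]

@[fun_prop] lemma c_ix {s : α → St} {b : α → ℕ} (hs : ComputableIn O s) (hb : ComputableIn O b) :
    ComputableIn O fun a => ix (s a) (b a) := by unfold ix; fun_prop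

@[fun_prop] lemma c_nx (hU : ComputableIn O U) {b e : α → ℕ} {r : α → List ℕ}
    (hb : ComputableIn O b) (he : ComputableIn O e) (hr : ComputableIn O r) :
    ComputableIn O fun a => nx U (b a) (e a) (r a) := by unfold nx; fun_prop

@[fun_prop] lemma c_body (hU : ComputableIn O U) {b e : α → ℕ} {r : α → List ℕ}
    (hb : ComputableIn O b) (hr : ComputableIn O r) (he : ComputableIn O e) :
    ComputableIn O fun a => body U (b a) (r a) (e a) := by unfold body; fun_prop

lemma c_step (hU : ComputableIn O U) {Z : ℕ → ℕ} (hZ : ComputableIn O Z) :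
    ComputableIn O fun p : St × ℕ => step U Z p.1 p.2 := by unfold step; fun_prop

end comp

/-- there is an `e`-splitting above `ρ` -/
def Sp (e : ℕ) (ρ : List ℕ) : Prop := ∃ w, spl e ρ w = true

lemma sp_iff {e : ℕ} {ρ : List ℕ} : Sp e ρ ↔ ∃ x τ τ' a a', ev e (ρ ++ τ) x = some a ∧
    ev e (ρ ++ τ') x = some a' ∧ a ≠ a' := by
  constructor
  · rintro ⟨w, hw⟩
    simp only [spl, Bool.and_eq_true, Option.isSome_iff_exists, Bool.not_eq_true',
      eqB_false_iff] at hw
    obtain ⟨⟨⟨a, h1⟩, a', h2⟩, h3⟩ := hw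
    exact ⟨_, _, _, a, a', h1, h2, fun e => h3 (by rw [h1, h2, e])⟩
  · rintro ⟨x, τ, τ', a, a', h1, h2, h3⟩
    exact ⟨encode (x, τ, τ'), by simp [spl, dc, h1, h2, h3]⟩

lemma Sp.of_le {e : ℕ} {ρ ρ' : List ℕ} (h : Sp e ρ') (h' : ρ <+: ρ') : Sp e ρ := by
  obtain ⟨t, rfl⟩ := h'
  obtain ⟨x, τ, τ', a, a', h1, h2, h3⟩ := sp_iff.1 h
  exact sp_iff.2 ⟨x, t ++ τ, t ++ τ', a, a', by rwa [← List.append_assoc],
    by rwa [← List.append_assoc], h3⟩

lemma any_range {p : ℕ → Bool} {b : ℕ} : (List.range b).any p = true ↔ ∃ w < b, p w = true := by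
  simp

lemma find_least {p : ℕ → Bool} {b n : ℕ} (h1 : p n = true) (h2 : ∀ m < n, p m = false)
    (h3 : n < b) : (List.range b).find? p = some n :=
  List.find?_range_eq_some.2 ⟨h1, List.mem_range.2 h3, fun m hm => by simp [h2 m hm]⟩

lemma find_spec {p : ℕ → Bool} {b : ℕ} (h : ∃ w < b, p w = true) :
    ∃ n < b, (List.range b).find? p = some n ∧ p n = true ∧ ∀ m < n, p m = false := by
  have h1 : ∃ w, p w = true := h.imp fun _ h => h.2
  obtain ⟨w, w1, w2⟩ := h
  have h2 : ∀ m < Nat.find h1, p m = false := fun m hm => by simpa using Nat.find_min h1 hm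
  have h3 := (Nat.find_min' h1 w2).trans_lt w1
  exact ⟨_, h3, find_least (Nat.find_spec h1) h2 h3, Nat.find_spec h1, h2⟩

lemma find_eq {p : ℕ → Bool} {b b' : ℕ} (h : ∃ w < b, p w = true) (h' : ∃ w < b', p w = true) :
    (List.range b).find? p = (List.range b').find? p := by
  obtain ⟨n, -, n2, n3, n4⟩ := find_spec h
  obtain ⟨m, m1, -, m3, -⟩ := find_spec h'
  rw [n2, find_least n3 n4 (lt_of_le_of_lt (not_lt.1 fun e => by simp [n4 m e] at m3) m1)]

variable {U Z : ℕ → ℕ} {b b' e : ℕ} {σ : List ℕ}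

lemma side_spec (h : ∃ w < b, spl e σ w = true) :
    ∃ x a, ev e (σ ++ side U b e σ) x = some a ∧ a ≠ U x := by
  obtain ⟨w, -, w2, hw, -⟩ := find_spec h
  simp only [spl, Bool.and_eq_true, Option.isSome_iff_exists, Bool.not_eq_true',
    eqB_false_iff] at hw
  obtain ⟨⟨⟨a, h1⟩, a', h2⟩, h3⟩ := hw
  simp only [side, w2, Option.getD_some]
  cases c : eqB (ev e (σ ++ (dc w).2.1) (dc w).1) (some (U (dc w).1))
  · exact ⟨_, a, h1, fun e => eqB_false_iff.1 c (by rw [h1, e])⟩
  · exact ⟨_, a', h2, fun e => h3 (by rw [eqB_iff.1 c, h2, e])⟩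

lemma side_eq (h : ∃ w < b, spl e σ w = true) (h' : ∃ w < b', spl e σ w = true) :
    side U b e σ = side U b' e σ := by
  simp only [side, find_eq h h']

lemma nx_spec (U : ℕ → ℕ) (b e : ℕ) (σ : List ℕ) :
    gr U (nx U b e σ) ≠ fd b e σ (nx U b e σ) ∧ ∀ m < nx U b e σ, gr U m = fd b e σ m := by
  obtain ⟨n, -, n2, n3, n4⟩ := find_spec (p := fun n => !eqB (gr U n) (fd b e σ n))
    (b := Nat.pair b (U b) + 1) ⟨Nat.pair b (U b), by omega, by
      have := Nat.left_le_pair b (U b)
      have e1 : gr U (Nat.pair b (U b)) = true := by simp [gr]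
      have e2 : leB (Nat.pair b (U b) + 1) b = false := by simp; omega
      simp [e1, fd, e2]⟩
  rw [nx, n2, Option.getD_some]
  exact ⟨by simpa using n3, fun m hm => by simpa using n4 m hm⟩

lemma nx_eq {n : ℕ} (h1 : gr U n ≠ fd b e σ n) (h2 : ∀ m < n, gr U m = fd b e σ m) :
    nx U b e σ = n :=
  le_antisymm (not_lt.1 fun h => h1 ((nx_spec U b e σ).2 n h))
    (not_lt.1 fun h => (nx_spec U b e σ).1 (h2 _ h))

lemma fd_iff {n : ℕ} :
    fd b e σ n = true ↔ n < b ∧ ∃ w < b, spl e (σ ++ [Nat.pair e n]) w = true := by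
  simp [fd]

/-- the bound gives true answers -/
def Good (U : ℕ → ℕ) (s : St) (b : ℕ) : Prop :=
  (∀ e ≤ s.2.1, Sp e s.1 → ∃ w < b, spl e s.1 w = true) ∧
    ∀ m ≤ nx U b (ix s b) s.1, Sp (ix s b) (s.1 ++ [Nat.pair (ix s b) m]) →
      fd b (ix s b) s.1 m = true

lemma ix_eq {s : St} (h : ∀ e ≤ s.2.1, Sp e s.1 → ∃ w < b, spl e s.1 w = true) (hb : b ≤ b') :
    ix s b' = ix s b := by
  unfold ix
  congr 1
  refine List.find?_congr fun e he => ?_
  congr 1
  rw [Bool.eq_iff_iff, any_range, any_range]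
  exact ⟨fun ⟨w, _, w2⟩ => h e (Nat.lt_succ_iff.1 (List.mem_range.1 he)) ⟨w, w2⟩,
    fun ⟨w, w1, w2⟩ => ⟨w, by omega, w2⟩⟩

lemma Good.mono {s : St} (h : Good U s b) (hb : b ≤ b') :
    Good U s b' ∧ step U Z s b' = step U Z s b := by
  have e1 := ix_eq h.1 hb
  have e2 : ∀ m ≤ nx U b (ix s b) s.1, fd b' (ix s b) s.1 m = fd b (ix s b) s.1 m := fun m hm => by
    rw [Bool.eq_iff_iff]
    refine ⟨fun c => h.2 m hm ((fd_iff.1 c).2.imp fun _ h => h.2), fun c => ?_⟩
    obtain ⟨c1, w, w1, w2⟩ := fd_iff.1 c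
    exact fd_iff.2 ⟨by omega, w, by omega, w2⟩
  have e3 : nx U b' (ix s b) s.1 = nx U b (ix s b) s.1 :=
    nx_eq (by rw [e2 _ le_rfl]; exact (nx_spec _ _ _ _).1) fun m hm => by
      rw [e2 m hm.le]; exact (nx_spec _ _ _ _).2 m hm
  refine ⟨⟨fun e he c => (h.1 e he c).imp fun w hw => ⟨by omega, hw.2⟩, ?_⟩, ?_⟩
  · rw [e1, e3]
    exact fun m hm c => (e2 m hm).trans (h.2 m hm c)
  · simp only [step, e1, e3, body, Nat.unpair_pair]
    cases c : gr U (nx U b (ix s b) s.1)
    · have c1 : fd b (ix s b) s.1 (nx U b (ix s b) s.1) = true := by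
        simpa [c] using (nx_spec U b (ix s b) s.1).1
      rw [side_eq (fd_iff.1 ((e2 _ le_rfl).trans c1)).2 (fd_iff.1 c1).2]
    · rfl

lemma bound_all {P : ℕ → ℕ → Prop} (k : ℕ) (h : ∀ e, ∃ b, ∀ b', b ≤ b' → P e b') :
    ∃ b, ∀ b', b ≤ b' → ∀ e ≤ k, P e b' := by
  choose f hf using h
  exact ⟨(Finset.range (k + 1)).sup f, fun b' hb e he => hf e b'
    ((Finset.le_sup (f := f) (Finset.mem_range.2 (Nat.lt_succ_of_le he))).trans hb)⟩

lemma exists_good (hU : ¬ Computable U) (s : St) : ∃ b, Good U s b := by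
  classical
  obtain ⟨b0, h0⟩ := bound_all (P := fun e b => Sp e s.1 → ∃ w < b, spl e s.1 w = true) s.2.1
    fun e => by
      by_cases c : Sp e s.1
      · exact c.elim fun w hw => ⟨w + 1, fun b' hb _ => ⟨w, hb, hw⟩⟩
      · exact ⟨0, fun _ _ c' => absurd c' c⟩
  have h1 : ∃ n, ¬ (gr U n = true ↔ Sp (ix s b0) (s.1 ++ [Nat.pair (ix s b0) n])) := by
    by_contra hc
    push Not at hc
    refine hU (toC (c_search (O := ∅) (P := fun i w => spl (ix s b0)
      (s.1 ++ [Nat.pair (ix s b0) (Nat.pair i w.unpair.1)]) w.unpair.2)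
      (v := fun _ w => w.unpair.1) (by fun_prop) (by fun_prop) (fun i => ?_) fun i w hw => ?_))
    · obtain ⟨w, hw⟩ := (hc (Nat.pair i (U i))).1 (by simp [gr])
      exact ⟨Nat.pair (U i) w, by simpa using hw⟩
    · have := (hc _).2 ⟨_, hw⟩
      simp only [gr, Nat.unpair_pair, eqB_iff] at this
      exact this.symm
  obtain ⟨b1, h2⟩ := bound_all (P := fun m b => Sp (ix s b0) (s.1 ++ [Nat.pair (ix s b0) m]) →
    fd b (ix s b0) s.1 m = true) (Nat.find h1) fun m => by
      by_cases c : Sp (ix s b0) (s.1 ++ [Nat.pair (ix s b0) m])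
      · exact c.elim fun w hw => ⟨w + m + 1, fun b' hb _ => fd_iff.2 ⟨by omega, w, by omega, hw⟩⟩
      · exact ⟨0, fun _ _ c' => absurd c' c⟩
  have h3 := h2 (max b0 b1) (le_max_right _ _)
  have h4 : ∀ m ≤ Nat.find h1, fd (max b0 b1) (ix s b0) s.1 m = true ↔
      Sp (ix s b0) (s.1 ++ [Nat.pair (ix s b0) m]) := fun m hm =>
    ⟨fun c => (fd_iff.1 c).2.imp fun _ h => h.2, h3 m hm⟩
  refine ⟨max b0 b1, h0 _ (le_max_left _ _), ?_⟩
  rw [ix_eq (h0 b0 le_rfl) (le_max_left _ _), nx_eq (n := Nat.find h1)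
    (fun c => Nat.find_spec h1 (by rw [c, h4 _ le_rfl])) fun m hm => by
      rw [Bool.eq_iff_iff, h4 m hm.le]
      exact not_not.1 (Nat.find_min h1 hm)]
  exact h3

open Classical in
lemma c_good (hU : Red U KK) :
    ComputableIn (orc KK) fun p : St × ℕ => decide (Good U p.1 p.2) := by
  have h1 : ComputableIn (orc KK) U := hU
  have h2 : ComputableIn (orc KK) fun a : ℕ × List ℕ => decide (∃ w, spl a.1 a.2 w = true) :=
    sigma1_KK (R := fun (a : ℕ × List ℕ) w => spl a.1 a.2 w) (toC (by fun_prop))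
  generalize hg : (fun a : ℕ × List ℕ => decide (∃ w, spl a.1 a.2 w = true)) = g at h2
  have h3 : ∀ e ρ, g (e, ρ) = true ↔ Sp e ρ := fun e ρ => by simp [← hg, Sp]
  refine cin_of_eq (f := fun p : St × ℕ => ((List.range (p.1.2.1 + 1)).all fun e =>
    !g (e, p.1.1) || (List.range p.2).any (spl e p.1.1)) &&
    (List.range (nx U p.2 (ix p.1 p.2) p.1.1 + 1)).all fun m =>
      !g (ix p.1 p.2, p.1.1 ++ [Nat.pair (ix p.1 p.2) m]) || fd p.2 (ix p.1 p.2) p.1.1 m)
    (by fun_prop) fun p => ?_
  rw [Bool.eq_iff_iff]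
  simp only [Good, ← h3, Bool.and_eq_true, List.all_eq_true, List.mem_range, Nat.lt_succ_iff,
    Bool.or_eq_true, Bool.not_eq_true', any_range, decide_eq_true_eq, ← Bool.not_eq_true,
    ← imp_iff_not_or]

lemma le_body (U : ℕ → ℕ) (b : ℕ) (σ : List ℕ) (a : ℕ) : σ ++ [a] <+: body U b σ a := by
  unfold body
  cases gr U a.unpair.2
  · exact List.prefix_append _ _
  · exact List.prefix_rfl

lemma getD_of_pre {C : ℕ → ℕ} {σ τ : List ℕ} {a : ℕ} (h1 : σ ++ [a] <+: τ)
    (h2 : τ = pre C τ.length) : C σ.length = a := by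
  have h3 : σ.length < τ.length := by simpa [Nat.succ_le_iff] using h1.length_le
  rw [← getD_pre C h3 0, ← h2, getD_of_isPrefix h1 (by simp)]
  simp

end Pool.Agent.MP_68d28f_lc.CE.J

namespace Pool.Agent.MP_68d28f_lc.CE

open Pool.Agent.MP_b427ce_lc Encodable J

theorem t3 : T3 := by
  classical
  rintro Z hZ ⟨U, U1, U2, U3⟩
  by_contra hD
  have hex : ∀ s, ∃ b, decide (Good U s b) = true := fun s => by simpa using exists_good U2 s
  have hg : ∀ s, Good U s (Nat.find (hex s)) := fun s => by simpa using Nat.find_spec (hex s)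
  obtain ⟨st, h, s1, s2, s3, s4⟩ := lemA St Z hZ hD (step U Z) (fun s => Nat.find (hex s))
    ([], 0, []) (c_step U1 (Red.refl Z)) (c_find (c_good (U1.trans hZ)) hex)
    fun s b hb => ((hg s).mono hb).2
  have k1 : ∀ t, (st t).2.1 = t := fun t => by
    induction t with
    | zero => rw [s2]
    | succ t ih => rw [s3, ← ih]; simp [step, ih]
  have p0 : ∀ t, (st t).1 ++ [Nat.pair (ix (st t) (h t)) (nx U (h t) (ix (st t) (h t)) (st t).1)]
      <+: (st (t + 1)).1 := fun t => by
    rw [s3]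
    exact (le_body _ _ _ _).trans (List.prefix_append _ _)
  have p1 : ∀ t u, t ≤ u → (st t).1 <+: (st u).1 := fun t u htu => by
    induction htu with
    | refl => exact List.prefix_rfl
    | step _ ih => exact ih.trans ((List.prefix_append _ _).trans (p0 _))
  have p2 : ∀ t, t ≤ (st t).1.length := fun t => by
    induction t with
    | zero => exact Nat.zero_le _
    | succ t ih =>
      have := (p0 t).length_le
      simp at this
      omega
  obtain ⟨C, hC⟩ : ∃ C : ℕ → ℕ, C = fun i => (st (i + 1)).1.getD i 0 := ⟨_, rfl⟩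
  have c1 : Red C Z := by
    rw [hC]
    unfold Red
    fun_prop
  have c2 : ∀ t, (st t).1 = pre C (st t).1.length := fun t => eq_pre_of (d := 0) rfl fun i hi => by
    rw [hC, ← getD_of_isPrefix (p1 t _ (le_max_left t (i + 1))) hi,
      getD_of_isPrefix (p1 _ _ (le_max_right t (i + 1))) (p2 (i + 1))]
  have f1 : ∀ t e, e ∈ (st t).2.2 → ∃ x a, ev e (st t).1 x = some a ∧ a ≠ U x := fun t => by
    induction t with
    | zero => simp [s2]
    | succ t ih =>
      intro e he
      have old : e ∈ (st t).2.2 → ∃ x a, ev e (st (t + 1)).1 x = some a ∧ a ≠ U x := fun c =>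
        (ih e c).imp fun x hx => hx.imp fun a ha => ⟨ev_mono (p1 _ _ (Nat.le_succ t)) ha.1, ha.2⟩
      rw [s3] at he
      cases c : gr U (nx U (h t) (ix (st t) (h t)) (st t).1)
      · simp only [step, c, cond_false, List.mem_cons] at he
        rcases he with rfl | he
        · have c1 : fd (h t) (ix (st t) (h t)) (st t).1 (nx U (h t) (ix (st t) (h t)) (st t).1)
              = true := by simpa [c] using (nx_spec U (h t) (ix (st t) (h t)) (st t).1).1
          obtain ⟨x, a, a1, a2⟩ := side_spec (U := U) (fd_iff.1 c1).2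
          refine ⟨x, a, ev_mono ?_ a1, a2⟩
          rw [s3]
          simp only [step, body, Nat.unpair_pair, c, cond_false]
          exact List.prefix_append _ _
        · exact old he
      · exact old (by simpa [step, c] using he)
  have f2 : ∀ t u e, t ≤ u → e ∈ (st t).2.2 → e ∈ (st u).2.2 := fun t u e htu he => by
    induction htu with
    | refl => exact he
    | step _ ih =>
      rw [s3, step]
      cases gr U _
      · exact List.mem_cons_of_mem _ ih
      · exact ih
  have f3 : ∀ e, ∃ t, ∀ u, t ≤ u → e ∈ (st u).2.2 ∨ ¬ Sp e (st u).1 := fun e => by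
    induction e using Nat.strong_induction_on with
    | _ e ih =>
    obtain ⟨t0, h0⟩ := bound_all (P := fun e' u => e' < e → e' ∈ (st u).2.2 ∨ ¬ Sp e' (st u).1) e
      fun e' => by
        by_cases c : e' < e
        · exact (ih e' c).imp fun t ht u hu _ => ht u hu
        · exact ⟨0, fun _ _ c' => absurd c' c⟩
    obtain ⟨t, t1, t2⟩ := s4 (max t0 e)
    have G := ((hg (st t)).mono (Z := Z) t2).1
    suffices H : e ∈ (st (t + 1)).2.2 ∨ ¬ Sp e (st (t + 1)).1 from ⟨t + 1, fun u hu =>
      H.imp (f2 _ _ _ hu) fun c c' => c (c'.of_le (p1 _ _ hu))⟩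
    by_contra hc
    push Not at hc
    have a1 : e ∉ (st t).2.2 := fun c => hc.1 (f2 _ _ _ (Nat.le_succ t) c)
    have a2 : Sp e (st t).1 := hc.2.of_le (p1 _ _ (Nat.le_succ t))
    have a3 : e ≤ (st t).2.1 := by rw [k1]; omega
    have a4 : ix (st t) (h t) = e := by
      rw [ix, find_least (n := e) _ _ (by omega), Option.getD_some]
      · simp only [Bool.and_eq_true, Bool.not_eq_true', ← Bool.not_eq_true, memB_iff, any_range]
        exact ⟨a1, G.1 e a3 a2⟩
      · intro m hm
        rw [← Bool.not_eq_true]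
        simp only [Bool.and_eq_true, Bool.not_eq_true', ← Bool.not_eq_true, memB_iff, any_range]
        rintro ⟨m1, w, -, w2⟩
        exact (h0 t (by omega) m hm.le hm).elim m1 fun c => c ⟨w, w2⟩
    cases c : gr U (nx U (h t) (ix (st t) (h t)) (st t).1)
    · exact hc.1 (by rw [s3]; simp only [step, c, cond_false]; simp [a4])
    · have a5 := G.2 _ le_rfl (a4 ▸ hc.2.of_le (a4 ▸ p0 t))
      exact (nx_spec U (h t) (ix (st t) (h t)) (st t).1).1 (c.trans a5.symm)
  have d1 : Red Z (jn U C) := by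
    have u1 : ComputableIn (orc (jn U C)) U := red_jn_left U C
    have u2 : ComputableIn (orc (jn U C)) C := red_jn_right U C
    let D : ℕ → ℕ → List ℕ := fun b => natIter [] fun _ σ =>
      body U b σ (C σ.length) ++ [C (body U b σ (C σ.length)).length]
    let ok : ℕ → ℕ → Prop := fun b j => gr U (C (st j).1.length).unpair.2 = true ∨ ∃ w < b,
      spl (C (st j).1.length).unpair.1 ((st j).1 ++ [C (st j).1.length]) w = true
    have e0 : ∀ t, C (st t).1.length =
        Nat.pair (ix (st t) (h t)) (nx U (h t) (ix (st t) (h t)) (st t).1) := fun t =>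
      getD_of_pre (p0 t) (c2 _)
    have e1 : ∀ t, ok (h t) t := fun t => by
      simp only [ok, e0, Nat.unpair_pair]
      cases c : gr U (nx U (h t) (ix (st t) (h t)) (st t).1)
      · exact Or.inr (fd_iff.1
          (by simpa [c] using (nx_spec U (h t) (ix (st t) (h t)) (st t).1).1)).2
      · exact Or.inl rfl
    have e2 : ∀ t, (st (t + 1)).1 = body U (h t) (st t).1 (C (st t).1.length) ++ [Z t] := fun t => by
      rw [s3, e0, step, k1]
    have e3 : ∀ b t, ok b t → body U b (st t).1 (C (st t).1.length) =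
        body U (h t) (st t).1 (C (st t).1.length) := fun b t c => by
      unfold body
      cases c' : gr U (C (st t).1.length).unpair.2
      · rw [side_eq (c.resolve_left (by simp [c'])) ((e1 t).resolve_left (by simp [c']))]
      · rfl
    have e5 : ∀ t, C (body U (h t) (st t).1 (C (st t).1.length)).length = Z t := fun t =>
      getD_of_pre (by rw [e2]) (c2 (t + 1))
    have e4 : ∀ b k, (∀ j < k, D b j = (st j).1 → ok b j) → D b k = (st k).1 := fun b k => by
      induction k with
      | zero => exact fun _ => by rw [s2]; rfl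
      | succ k ih =>
        intro H
        have i1 := ih fun j hj => H j (by omega)
        change body U b (D b k) (C (D b k).length) ++
          [C (body U b (D b k) (C (D b k).length)).length] = _
        rw [i1, e3 b k (H k (by omega) i1), e2, e5]
    have hD : ComputableIn (orc (jn U C)) fun p : ℕ × ℕ => D p.1 p.2 := by
      unfold D
      fun_prop
    clear_value D
    refine c_search (P := fun k b => (List.range (k + 1)).all fun j =>
      gr U (C (D b j).length).unpair.2 || (List.range b).any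
        (spl (C (D b j).length).unpair.1 (D b j ++ [C (D b j).length])))
      (v := fun k b => C ((D b (k + 1)).length - 1)) ?_ ?_ (fun k => ?_) fun k b H => ?_
    · have := c_comp hD (g := fun p : (ℕ × ℕ) × ℕ => (p.1.2, p.2)) (by fun_prop)
      refine c_all (by fun_prop) (c_or (by fun_prop) (c_any (by fun_prop) ?_))
      have := c_comp this (g := fun p : ((ℕ × ℕ) × ℕ) × ℕ => p.1) (by fun_prop)
      fun_prop
    · have := c_comp hD (g := fun p : ℕ × ℕ => (p.2, p.1 + 1)) (by fun_prop)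
      fun_prop
    · obtain ⟨b, hb⟩ := bound_all (P := fun j b => ok b j) k fun j => ⟨h j, fun b' hb =>
        (e1 j).imp id fun ⟨w, w1, w2⟩ => ⟨w, by omega, w2⟩⟩
      refine ⟨b, ?_⟩
      simp only [List.all_eq_true, List.mem_range, Bool.or_eq_true, any_range]
      intro j hj
      rw [e4 b j fun i hi _ => hb b le_rfl i (by omega)]
      exact hb b le_rfl j (by omega)
    · simp only [List.all_eq_true, List.mem_range, Bool.or_eq_true, any_range] at H
      rw [e4 b (k + 1) fun j hj c => by simpa only [c] using H j hj, e2, ← e5]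
      simp
  obtain ⟨e, he⟩ := red_iff.1 (U3 C c1 d1)
  obtain ⟨t, ht⟩ := f3 e
  rcases ht t le_rfl with c | c
  · obtain ⟨x, a, a1, a2⟩ := f1 t e c
    rw [c2] at a1
    exact a2 (he.eq a1)
  · have g1 : ∀ x, ∃ τ, ev e ((st t).1 ++ τ) x = some (U x) := fun x => by
      obtain ⟨n, hn⟩ := he.ev_ge x
      obtain ⟨τ, hτ⟩ := p1 t _ (le_max_left t n)
      refine ⟨τ, ?_⟩
      rw [hτ, c2]
      exact hn _ ((le_max_right t n).trans (p2 _))
    refine U2 (toC (c_search (O := ∅)
      (P := fun x w => (ev e ((st t).1 ++ (decode w : Option (List ℕ)).getD []) x).isSome)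
      (v := fun x w => (ev e ((st t).1 ++ (decode w : Option (List ℕ)).getD []) x).getD 0)
      (by fun_prop) (by fun_prop) (fun x => ?_) fun x w hw => ?_))
    · obtain ⟨τ, hτ⟩ := g1 x
      exact ⟨encode τ, by simp [hτ]⟩
    · obtain ⟨τ, hτ⟩ := g1 x
      obtain ⟨a, ha⟩ := Option.isSome_iff_exists.1 hw
      rw [ha, Option.getD_some]
      by_contra ne
      exact c (sp_iff.2 ⟨x, _, _, _, _, ha, hτ, ne⟩)

end Pool.Agent.MP_68d28f_lc.CE
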